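import Mathlib

/-!
[AP4] MP_651b89_nt: definitions for the number theoretic part.
-/

namespace AP4
open Finset

/-- the primes `p ≤ x` not dividing `d` -/
def pr (d x : ℕ) : Finset ℕ := (Nat.primesLE x).filter (fun p => ¬ p ∣ d)

/-- their number -/
def M (d x : ℕ) : ℕ := (pr d x).card

/-- the Euler product over them -/
noncomputable def G (d x : ℕ) : ℝ := ∏ p ∈ pr d x, (1 - 1 / (p : ℝ))⁻¹

/-- `∑_{p ≤ x, p ∣ d} log p / p` -/
noncomputable def A (d x : ℕ) : ℝ :=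
  ∑ p ∈ (Nat.primesLE x).filter (fun p => p ∣ d), Real.log p / p

/-- the positive integers `c ≤ x` coprime to `d` -/
def cop (d x : ℕ) : Finset ℕ := (Icc 1 x).filter (fun c => Nat.Coprime c d)

/-- the product of the primes `p ≤ k` dividing `m` to an odd power -/
def sp (k m : ℕ) : ℕ := ∏ p ∈ Nat.primesLE k, p ^ (m.factorization p % 2)

/-- how often the value `c` is taken by `sp k (n + i d)`, `i < k` -/
def S (n d k c : ℕ) : ℕ := ((range k).filter (fun i => sp k (n + i * d) = c)).card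

/-- the terms `n + i d`, `i < k`, of a coprime progression are squares times numbers composed of
primes `≤ k` -/
structure Sol (n d k : ℕ) : Prop where
  n0 : 0 < n
  d0 : 0 < d
  cop : Nat.Coprime n d
  ev : ∀ i < k, ∀ p : ℕ, p.Prime → k < p → Even ((n + i * d).factorization p)

/-- the function bounding one dyadic block -/
noncomputable def a (ε : ℝ) (d i : ℕ) : ℝ :=
  min (135 / ((M d (2 ^ i) : ℝ) + 3)) ε * Real.log ((M d (2 ^ i) : ℝ) + 3)

/-- hypotheses of the main sum estimate -/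
structure HS (ε : ℝ) (N0 d k : ℕ) (S : ℕ → ℕ) : Prop where
  ε0 : 0 < ε
  ε1 : ε ≤ 1
  N1 : 1 ≤ N0
  d1 : 1 ≤ d
  k1 : 1 ≤ k
  h0 : ∑ c ∈ Icc 1 k, S c ≤ k
  h1 : ∀ c Q : ℕ, 1 ≤ c → 1 ≤ Q → c * Q ^ 3 ≤ k →
    (S c : ℝ) ≤ 135 * ((k : ℝ) / c) / ((M d Q : ℝ) + 3)
  h2 : ∀ c : ℕ, 1 ≤ c → c * N0 ≤ k → (S c : ℝ) ≤ ε * ((k : ℝ) / c)

end AP4
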