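import Pool.Agent.AP4.Defs

/-!
[AP4-N1] reduction to squares times small numbers.

`sol_of_eq`.  Let `p ≥ k` be a prime.  If `p ∣ n + i d` and `p ∣ n + j d` with `i ≠ j < k`: `p ∤ d`
(otherwise `p ∣ n`, contradiction to `gcd (n,d) = 1`) and `p ∣ (i - j) d`, so `p ∣ |i - j| < k ≤ p`,
contradiction.  So at most one term is divisible by `p`, and for that term
`v_p (n + i d) = v_p (∏) = v_p (b) + l v_p (y) = l v_p (y)` (`p ∤ b` as `p ≥ k`), which is even; for the
others the valuation is `0`.

`sp_mul_sq`.  `m = ∏_{p} p ^ v_p` over all primes; for `p ≥ k` the exponent is even, for `p < k`,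
`v_p = v_p % 2 + 2 (v_p / 2)`.  Take `x = ∏_{p ∈ m.primeFactors} p ^ (v_p / 2)`; compare
factorizations (`Nat.eq_of_factorization_eq` or `Nat.factorization_prod_pow_eq_self`).

`structure_S`.  If `S n d k c = 0` take `n' = 1`, `E = ∅`.  Otherwise let `i0` be the least index
with `sp k (n + i0 d) = c`, `n + i0 d = c n'`; `n'` is a square.  For another index `i` with value
`c`: `c ∣ n + i d`, so `c ∣ (i - i0) d`, and `Coprime c d` (since `c ∣ n + i0 d`, which is coprime to
`d`), so `i = i0 + c j` with `j ≤ (k - 1)/c`, and `n + i d = c (n' + j d) = c x^2`, so `n' + j d = x^2`.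
`E` = the set of these `j`.
-/

namespace AP4
open Finset

theorem sol_of_eq {n d k b y l : ℕ} (hn : 0 < n) (hd : 0 < d) (hb : 0 < b) (hy : 0 < y)
    (hc : Nat.Coprime n d) (hl : Even l) (hP : ∀ p : ℕ, p.Prime → p ∣ b → p ≤ k)
    (h : ∏ i ∈ range k, (n + i * d) = b * y ^ l) : Sol n d k := by
  refine ⟨hn, hd, hc, ?_⟩
  intro i hi p hp hkp
  by_cases hpi : p ∣ n + i * d
  · have hpd : ¬ p ∣ d := by
      intro hpd
      have hpn : p ∣ n := (Nat.dvd_add_left (hpd.mul_left i)).1 hpi
      exact hp.one_lt.ne' (Nat.dvd_one.1 (hc ▸ Nat.dvd_gcd hpn hpd))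
    have hother : ∀ j ∈ range k, j ≠ i → (n + j * d).factorization p = 0 := by
      intro j hj hji
      apply Nat.factorization_eq_zero_of_not_dvd
      intro hpj
      have h1 : (p : ℤ) ∣ ((j : ℤ) - i) * d := by
        have h2 : (p : ℤ) ∣ ((n + j * d : ℕ) : ℤ) - ((n + i * d : ℕ) : ℤ) :=
          dvd_sub (Int.natCast_dvd_natCast.2 hpj) (Int.natCast_dvd_natCast.2 hpi)
        have h3 : ((n + j * d : ℕ) : ℤ) - ((n + i * d : ℕ) : ℤ) = ((j : ℤ) - i) * d := by
          push_cast; ring
        rwa [h3] at h2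
      rcases (Nat.prime_iff_prime_int.1 hp).dvd_or_dvd h1 with h2 | h2
      · have h4 : (j : ℤ) - i ≠ 0 := by omega
        have h5 := Int.le_of_dvd (abs_pos.2 h4) ((dvd_abs _ _).2 h2)
        have hj' := mem_range.1 hj
        have h6 : |(j : ℤ) - i| < k := by
          rw [abs_lt]; constructor <;> omega
        omega
      · exact hpd (Int.natCast_dvd_natCast.1 h2)
    have h1 : (∏ j ∈ range k, (n + j * d)).factorization p = (n + i * d).factorization p := by
      rw [Nat.factorization_prod (fun j _ => by positivity), Finsupp.finsetSum_apply]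
      rw [Finset.sum_eq_single i (fun j hj hji => hother j hj hji)]
      intro h0
      exact absurd (mem_range.2 hi) h0
    rw [← h1, h, Nat.factorization_mul hb.ne' (by positivity), Nat.factorization_pow]
    have h2 : b.factorization p = 0 := by
      apply Nat.factorization_eq_zero_of_not_dvd
      intro hpb
      have := hP p hp hpb
      omega
    simp only [Finsupp.add_apply, Finsupp.smul_apply, smul_eq_mul, h2, zero_add]
    exact hl.mul_right _
  · rw [Nat.factorization_eq_zero_of_not_dvd hpi]
    exact Even.zero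

theorem sp_pos (k m : ℕ) : 0 < sp k m := by
  unfold sp
  apply Finset.prod_pos
  intro p hp
  exact pow_pos (Nat.mem_primesLE.1 hp).2.pos _

theorem sp_mul_sq {n d k : ℕ} (h : Sol n d k) {i : ℕ} (hi : i < k) :
    ∃ x : ℕ, 0 < x ∧ n + i * d = sp k (n + i * d) * x ^ 2 := by
  set m := n + i * d with hm
  have hm0 : m ≠ 0 := by have := h.n0; omega
  refine ⟨∏ p ∈ m.primeFactors, p ^ (m.factorization p / 2), ?_, ?_⟩
  · apply Finset.prod_pos
    intro p hp
    exact pow_pos (Nat.prime_of_mem_primeFactors hp).pos _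
  · have h1 : m = ∏ p ∈ m.primeFactors, p ^ (m.factorization p) := by
      have := Nat.prod_factorization_pow_eq_self hm0
      rw [Finsupp.prod, Nat.support_factorization] at this
      exact this.symm
    have h2 : sp k m = ∏ p ∈ m.primeFactors, p ^ (m.factorization p % 2) := by
      unfold sp
      have e1 : ∏ p ∈ m.primeFactors.filter (fun p => p ≤ k), p ^ (m.factorization p % 2) =
          ∏ p ∈ Nat.primesLE k, p ^ (m.factorization p % 2) := by
        apply Finset.prod_subset
        · intro p hp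
          rw [mem_filter] at hp
          rw [Nat.mem_primesLE]
          exact ⟨hp.2, Nat.prime_of_mem_primeFactors hp.1⟩
        · intro p hp hp'
          rw [Nat.mem_primesLE] at hp
          have : m.factorization p = 0 := by
            apply Nat.factorization_eq_zero_of_not_dvd
            intro hd
            exact hp' (mem_filter.2 ⟨Nat.mem_primeFactors.2 ⟨hp.2, hd, hm0⟩, hp.1⟩)
          rw [this]
          simp
      rw [← e1]
      apply Finset.prod_subset (Finset.filter_subset _ _)
      intro p hp hp'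
      have hpk : k < p := by
        by_contra hlt
        exact hp' (mem_filter.2 ⟨hp, not_lt.1 hlt⟩)
      have := h.ev i hi p (Nat.prime_of_mem_primeFactors hp) hpk
      rw [Nat.even_iff] at this
      rw [← hm] at this
      rw [this, pow_zero]
    rw [h2, ← Finset.prod_pow, ← Finset.prod_mul_distrib]
    conv_lhs => rw [h1]
    apply Finset.prod_congr rfl
    intro p _
    rw [← pow_mul, ← pow_add]
    congr 1
    omega

theorem coprime_term {n d : ℕ} (h : Nat.Coprime n d) (i : ℕ) : Nat.Coprime (n + i * d) d := by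
  simpa using h

theorem sp_coprime {n d k : ℕ} (h : Sol n d k) {i : ℕ} (hi : i < k) :
    Nat.Coprime (sp k (n + i * d)) d := by
  obtain ⟨x, _, hx⟩ := sp_mul_sq h hi
  exact Nat.Coprime.coprime_dvd_left ⟨x ^ 2, hx⟩ (coprime_term h.cop i)

/-- if all primes `≤ k` divide `d`, then all terms are squares -/
theorem square_of_all {n d k : ℕ} (h : Sol n d k) (hd : ∀ p : ℕ, p.Prime → p ≤ k → p ∣ d) {i : ℕ}
    (hi : i < k) : IsSquare (n + i * d) := by
  obtain ⟨x, _, hx⟩ := sp_mul_sq h hi
  have h1 : sp k (n + i * d) = 1 := by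
    unfold sp
    apply Finset.prod_eq_one
    intro p hp
    rw [Nat.mem_primesLE] at hp
    have : (n + i * d).factorization p = 0 := by
      apply Nat.factorization_eq_zero_of_not_dvd
      intro hpd
      have := Nat.dvd_gcd hpd (hd p hp.2 hp.1)
      rw [coprime_term h.cop i] at this
      exact hp.2.one_lt.ne' (Nat.dvd_one.1 this)
    rw [this]
    simp
  rw [h1, one_mul] at hx
  exact ⟨x, by rw [hx]; ring⟩

theorem sum_S_le (n d k : ℕ) : ∑ c ∈ Icc 1 k, S n d k c ≤ k := by
  unfold S
  rw [Finset.sum_card_fiberwise_eq_card_filter]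
  exact (Finset.card_filter_le _ _).trans (by simp)

theorem structure_S {n d k : ℕ} (h : Sol n d k) {c : ℕ} (hc : 1 ≤ c) :
    ∃ n' : ℕ, 0 < n' ∧ Nat.Coprime n' d ∧ ∃ E : Finset ℕ, E ⊆ range (k / c + 1) ∧
      E.card = S n d k c ∧ ∀ j ∈ E, IsSquare (n' + j * d) := by
  set F := (range k).filter (fun i => sp k (n + i * d) = c) with hF
  have hS : S n d k c = F.card := rfl
  by_cases h0 : F.Nonempty
  · set i0 := F.min' h0 with hi0
    have hi0F : i0 ∈ F := F.min'_mem h0
    have hi0' := mem_filter.1 hi0F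
    obtain ⟨x0, hx0, he0⟩ := sp_mul_sq h (mem_range.1 hi0'.1)
    rw [hi0'.2] at he0
    have hkey : ∀ i ∈ F, i0 ≤ i ∧ c ∣ (i - i0) ∧ IsSquare (x0 ^ 2 + (i - i0) / c * d) := by
      intro i hiF
      have hi' := mem_filter.1 hiF
      have hle : i0 ≤ i := F.min'_le i hiF
      obtain ⟨x, hx, he⟩ := sp_mul_sq h (mem_range.1 hi'.1)
      rw [hi'.2] at he
      have hcop : Nat.Coprime c d := by
        have := sp_coprime h (mem_range.1 hi0'.1)
        rwa [hi0'.2] at this
      obtain ⟨t, ht⟩ := Nat.exists_eq_add_of_le hle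
      have h1 : i - i0 = t := by omega
      have h2 : c * x ^ 2 = c * x0 ^ 2 + t * d := by
        rw [← he, ← he0, ht]; ring
      have h3 : c ∣ t * d := (Nat.dvd_add_right (dvd_mul_right c (x0 ^ 2))).1
        (h2 ▸ dvd_mul_right c (x ^ 2))
      have h4 : c ∣ t := hcop.dvd_of_dvd_mul_right h3
      refine ⟨hle, by rwa [h1], ?_⟩
      rw [h1]
      obtain ⟨j, hj⟩ := h4
      rw [hj, Nat.mul_div_cancel_left j (by omega)]
      refine ⟨x, ?_⟩
      have h5 : c * (x0 ^ 2 + j * d) = c * (x * x) := by
        have : c * x ^ 2 = c * (x * x) := by ring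
        rw [← this, h2, hj]; ring
      exact Nat.eq_of_mul_eq_mul_left (by omega) h5
    refine ⟨x0 ^ 2, by positivity, ?_, F.image (fun i => (i - i0) / c), ?_, ?_, ?_⟩
    · exact Nat.Coprime.coprime_dvd_left ⟨c, by rw [he0]; ring⟩ (coprime_term h.cop i0)
    · intro j hj
      obtain ⟨i, hiF, rfl⟩ := mem_image.1 hj
      have hi' := mem_range.1 (mem_filter.1 hiF).1
      rw [mem_range]
      have : (i - i0) / c ≤ k / c := Nat.div_le_div_right (by omega)
      omega
    · rw [hS]
      apply Finset.card_image_of_injOn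
      intro i hi i' hi' he
      simp only at he
      obtain ⟨a1, a2, _⟩ := hkey i hi
      obtain ⟨b1, b2, _⟩ := hkey i' hi'
      have h1 := Nat.div_mul_cancel a2
      have h2 := Nat.div_mul_cancel b2
      rw [he, h2] at h1
      omega
    · intro j hj
      obtain ⟨i, hiF, rfl⟩ := mem_image.1 hj
      exact (hkey i hiF).2.2
  · rw [Finset.not_nonempty_iff_eq_empty] at h0
    refine ⟨1, one_pos, Nat.coprime_one_left d, ∅, by simp, ?_, by simp⟩
    rw [hS, h0]

end AP4
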