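import Pool.Agent.AP4.Defs

/-!
[AP4-N3] the sieve bound for squares in progressions (second moment).

`sieve`.  For `p ∈ P` (odd prime, `p ∤ d`) let `μ_p = (p+1)/(2p)` and
`f_p(j) = 1 - μ_p` if `(n' + j d : ZMod p)` is a square in `ZMod p` (zero included), `= - μ_p` otherwise.
`f_p` is `p`-periodic in `j`, `|f_p| ≤ 1`, and its sum over a full period is `0`, because
`j ↦ n' + j d` is a bijection of `ZMod p` and there are `(p+1)/2` squares in `ZMod p`
(the map `x ↦ x^2` is two-to-one on the nonzero elements; or via `quadraticChar`: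
`1 + χ(a) = 2` for nonzero squares, `1` for `0`, `0` for nonsquares, and `∑ χ = 0`
(`quadraticChar_sum_zero`); so one can take `f_p(j) = χ_p(n'+jd)/2 + (1_{p ∣ n'+jd} - 1/p)/2`, i.e.
`1_{square} - 1/2 - 1/(2p)`).
For `j ∈ E`: `f_p(j) = (p-1)/(2p) ≥ 1/3`.  Put `F(j) = ∑_{p ∈ P} f_p(j) ≥ |P|/3` on `E`.  So
`|E| |P|^2 / 9 ≤ ∑_{j < N} F(j)^2 = ∑_{p,q ∈ P} ∑_{j<N} f_p(j) f_q(j)`.
Diagonal: `≤ |P| N`.  For `p ≠ q` the product `f_p f_q` has period `pq` and sum `0` over a full
period (Chinese remainder theorem: the sum over `j mod pq` is the product of the two sums), hence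
the sum over `j < N` is a sum over `< pq` consecutive values, so it is at most `pq ≤ Q^2` in absolute
value.  Total: `|E||P|^2/9 ≤ |P| N + |P|^2 Q^2`.  Divide by `|P|` (if `P = ∅` the claim is trivial).
-/

namespace AP4
open Finset

/-- indicator of the squares minus its mean -/
noncomputable def n3_g (n' d p : ℕ) (x : ZMod p) : ℝ :=
  open Classical in (if IsSquare ((n' : ZMod p) + x * d) then 1 else 0) - ((p : ℝ) + 1) / (2 * p)

open Classical in
theorem n3_card (p : ℕ) [Fact p.Prime] (hp2 : p ≠ 2) :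
    ∑ y : ZMod p, (if IsSquare y then (1 : ℝ) else 0) = ((p : ℝ) + 1) / 2 := by
  have hchar : ringChar (ZMod p) ≠ 2 := by rwa [ZMod.ringChar_zmod_n]
  have h1 : ∀ y : ZMod p, (if IsSquare y then (1 : ℝ) else 0) =
      (1 + ((quadraticChar (ZMod p) y : ℤ) : ℝ)) / 2 + if y = 0 then 1 / 2 else 0 := by
    intro y
    by_cases hy : y = 0
    · subst hy
      rw [if_pos (by exact ⟨0, by simp⟩), if_pos rfl, MulChar.map_zero]
      norm_num
    · rw [if_neg hy]
      by_cases hs : IsSquare y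
      · rw [if_pos hs, (quadraticChar_one_iff_isSquare hy).2 hs]
        norm_num
      · rw [if_neg hs]
        rcases quadraticChar_dichotomy hy with h | h
        · exact absurd ((quadraticChar_one_iff_isSquare hy).1 h) hs
        · rw [h]; norm_num
  rw [Finset.sum_congr rfl fun y _ => h1 y, Finset.sum_add_distrib, ← Finset.sum_div,
    Finset.sum_add_distrib]
  have h2 : ∑ y : ZMod p, ((quadraticChar (ZMod p) y : ℤ) : ℝ) = 0 := by
    rw [← Int.cast_sum, quadraticChar_sum_zero hchar, Int.cast_zero]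
  rw [h2]
  simp [ZMod.card]
  ring

theorem n3_sum (n' d p : ℕ) [Fact p.Prime] (hp2 : p ≠ 2) (hd : ¬ p ∣ d) :
    ∑ x : ZMod p, n3_g n' d p x = 0 := by
  classical
  have hd' : (d : ZMod p) ≠ 0 := by
    rwa [Ne, ZMod.natCast_eq_zero_iff]
  unfold n3_g
  rw [Finset.sum_sub_distrib]
  have h1 : ∑ x : ZMod p, (if IsSquare ((n' : ZMod p) + x * d) then (1 : ℝ) else 0) =
      ∑ y : ZMod p, (if IsSquare y then (1 : ℝ) else 0) := by
    refine Fintype.sum_equiv ((Equiv.mulRight₀ (d : ZMod p) hd').trans (Equiv.addLeft (n' : ZMod p)))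
      _ _ ?_
    intro x
    rfl
  have h3 : (p : ℝ) ≠ 0 := by
    have := (Fact.out : p.Prime).pos
    positivity
  have h4 : ∑ x : ZMod p, (((p : ℝ) + 1) / (2 * p)) = ((p : ℝ) + 1) / 2 := by
    rw [Finset.sum_const, Finset.card_univ, ZMod.card, nsmul_eq_mul]
    field_simp
  rw [h4]
  have h5 := n3_card p hp2
  convert sub_self (((p : ℝ) + 1) / 2) using 2
  rw [← h5, ← h1]
  refine Finset.sum_congr rfl fun x _ => ?_
  congr

theorem n3_abs (n' d p : ℕ) (hp : 1 ≤ p) (x : ZMod p) : |n3_g n' d p x| ≤ 1 := by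
  unfold n3_g
  have h1 : (1 : ℝ) ≤ p := by exact_mod_cast hp
  have h2 : ((p : ℝ) + 1) / (2 * p) ≤ 1 := by
    rw [div_le_one (by positivity)]
    linarith
  have h3 : 0 ≤ ((p : ℝ) + 1) / (2 * p) := by positivity
  split_ifs <;> rw [abs_le] <;> constructor <;> linarith

/-- a periodic function of mean zero -/
theorem n3_per (h : ℕ → ℝ) (M : ℕ) (hM : 0 < M) (hper : ∀ j, h (M + j) = h j)
    (hsum : ∑ j ∈ range M, h j = 0) (habs : ∀ j, |h j| ≤ 1) (N : ℕ) :
    |∑ j ∈ range N, h j| ≤ M := by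
  induction N using Nat.strong_induction_on with
  | _ N IH =>
  by_cases hN : N ≤ M
  · calc |∑ j ∈ range N, h j| ≤ ∑ j ∈ range N, |h j| := Finset.abs_sum_le_sum_abs _ _
      _ ≤ ∑ j ∈ range N, (1 : ℝ) := Finset.sum_le_sum fun j _ => habs j
      _ = N := by simp
      _ ≤ M := by exact_mod_cast hN
  · push Not at hN
    obtain ⟨K, rfl⟩ := Nat.exists_eq_add_of_lt hN
    have h1 : M + K + 1 = M + (K + 1) := by ring
    rw [h1, Finset.sum_range_add, hsum, zero_add]
    rw [Finset.sum_congr rfl fun j _ => hper j]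
    exact IH (K + 1) (by omega)

theorem n3_range_sum (M : ℕ) [NeZero M] (G : ZMod M → ℝ) :
    ∑ j ∈ range M, G (j : ZMod M) = ∑ x : ZMod M, G x := by
  refine Finset.sum_nbij' (fun j => (j : ZMod M)) (fun x => x.val) ?_ ?_ ?_ ?_ ?_
  · intro j _; exact Finset.mem_univ _
  · intro x _; exact Finset.mem_range.2 (ZMod.val_lt x)
  · intro j hj; exact ZMod.val_cast_of_lt (Finset.mem_range.1 hj)
  · intro x _; exact ZMod.natCast_zmod_val x
  · intro j _; rfl

theorem n3_off (p q n' d N : ℕ) (hp : p.Prime) (hq : q.Prime) (hpq : p ≠ q) (hp2 : p ≠ 2)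
    (hpd : ¬ p ∣ d) :
    |∑ j ∈ range N, n3_g n' d p (j : ZMod p) * n3_g n' d q (j : ZMod q)| ≤ (p : ℝ) * q := by
  have : Fact p.Prime := ⟨hp⟩
  have : Fact q.Prime := ⟨hq⟩
  have hcop : Nat.Coprime p q := (Nat.coprime_primes hp hq).2 hpq
  have hpos : 0 < p * q := Nat.mul_pos hp.pos hq.pos
  have : NeZero (p * q) := ⟨hpos.ne'⟩
  have h := n3_per (fun j => n3_g n' d p (j : ZMod p) * n3_g n' d q (j : ZMod q)) (p * q) hpos
    ?_ ?_ ?_ N
  · push_cast at h
    exact h
  · intro j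
    simp
  · let G : ZMod (p * q) → ℝ := fun x =>
      n3_g n' d p (ZMod.chineseRemainder hcop x).1 * n3_g n' d q (ZMod.chineseRemainder hcop x).2
    have h1 : ∀ j : ℕ, n3_g n' d p (j : ZMod p) * n3_g n' d q (j : ZMod q) = G (j : ZMod (p * q)) := by
      intro j
      simp only [G, map_natCast, Prod.fst_natCast, Prod.snd_natCast]
    rw [Finset.sum_congr rfl fun j _ => h1 j, n3_range_sum]
    have h2 := Equiv.sum_comp (ZMod.chineseRemainder hcop).toEquiv
      (fun y : ZMod p × ZMod q => n3_g n' d p y.1 * n3_g n' d q y.2)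
    have h3 : ∑ x : ZMod (p * q), G x = ∑ y : ZMod p × ZMod q, n3_g n' d p y.1 * n3_g n' d q y.2 := h2
    rw [h3, Fintype.sum_prod_type]
    simp only
    rw [← Finset.sum_mul_sum, n3_sum n' d p hp2 hpd, zero_mul]
  · intro j
    rw [abs_mul]
    exact mul_le_one₀ (n3_abs n' d p hp.one_le _) (abs_nonneg _) (n3_abs n' d q hq.one_le _)

theorem sieve (P : Finset ℕ) (Q d n' N : ℕ)
    (hP : ∀ p ∈ P, p.Prime ∧ p ≠ 2 ∧ p ≤ Q ∧ ¬ p ∣ d) (E : Finset ℕ) (hE : E ⊆ range N)
    (hsq : ∀ j ∈ E, IsSquare (n' + j * d)) :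
    (E.card : ℝ) * P.card ≤ 9 * ((N : ℝ) + P.card * (Q : ℝ) ^ 2) := by
  classical
  by_cases hP0 : P.card = 0
  · rw [hP0]
    simp
  have hPpos : (0 : ℝ) < P.card := by
    have : 0 < P.card := Nat.pos_of_ne_zero hP0
    exact_mod_cast this
  set f : ℕ → ℕ → ℝ := fun p j => n3_g n' d p (j : ZMod p) with hf
  -- lower bound
  have hlow : ∀ p ∈ P, ∀ j ∈ E, 1 / 3 ≤ f p j := by
    intro p hp j hj
    obtain ⟨h1, h2, -, -⟩ := hP p hp
    obtain ⟨a, ha⟩ := hsq j hj
    have hs : IsSquare ((n' : ZMod p) + (j : ZMod p) * d) := by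
      refine ⟨(a : ZMod p), ?_⟩
      have := congrArg (fun t : ℕ => (t : ZMod p)) ha
      simpa using this
    have h3 : (3 : ℝ) ≤ p := by
      have : 3 ≤ p := by
        have := h1.two_le
        omega
      exact_mod_cast this
    simp only [hf, n3_g]
    rw [if_pos hs, le_sub_comm, div_le_iff₀ (by positivity)]
    nlinarith
  have hlow2 : (E.card : ℝ) * ((P.card : ℝ) / 3) ^ 2 ≤ ∑ j ∈ range N, (∑ p ∈ P, f p j) ^ 2 := by
    calc (E.card : ℝ) * ((P.card : ℝ) / 3) ^ 2 = ∑ j ∈ E, ((P.card : ℝ) / 3) ^ 2 := by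
          rw [Finset.sum_const, nsmul_eq_mul]
      _ ≤ ∑ j ∈ E, (∑ p ∈ P, f p j) ^ 2 := by
          refine Finset.sum_le_sum fun j hj => ?_
          apply pow_le_pow_left₀ (by positivity)
          calc (P.card : ℝ) / 3 = ∑ p ∈ P, (1 / 3 : ℝ) := by
                rw [Finset.sum_const, nsmul_eq_mul]; ring
            _ ≤ ∑ p ∈ P, f p j := Finset.sum_le_sum fun p hp => hlow p hp j hj
      _ ≤ ∑ j ∈ range N, (∑ p ∈ P, f p j) ^ 2 :=
          Finset.sum_le_sum_of_subset_of_nonneg hE fun j _ _ => sq_nonneg _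
  -- upper bound
  have hup : ∑ j ∈ range N, (∑ p ∈ P, f p j) ^ 2 ≤ (P.card : ℝ) * N + (P.card : ℝ) ^ 2 * (Q : ℝ) ^ 2 := by
    have h1 : ∑ j ∈ range N, (∑ p ∈ P, f p j) ^ 2 =
        ∑ p ∈ P, ∑ q ∈ P, ∑ j ∈ range N, f p j * f q j := by
      have h2 : ∀ j, (∑ p ∈ P, f p j) ^ 2 = ∑ p ∈ P, ∑ q ∈ P, f p j * f q j := by
        intro j
        rw [pow_two, Finset.sum_mul_sum]
      rw [Finset.sum_congr rfl fun j _ => h2 j, Finset.sum_comm]
      refine Finset.sum_congr rfl fun p _ => ?_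
      rw [Finset.sum_comm]
    rw [h1]
    have h3 : ∀ p ∈ P, ∑ q ∈ P, ∑ j ∈ range N, f p j * f q j ≤ N + (P.card : ℝ) * (Q : ℝ) ^ 2 := by
      intro p hp
      have h4 : ∀ q ∈ P, ∑ j ∈ range N, f p j * f q j ≤ (if q = p then (N : ℝ) else 0) + (Q : ℝ) ^ 2 := by
        intro q hq
        obtain ⟨a1, a2, a3, a4⟩ := hP p hp
        obtain ⟨b1, b2, b3, b4⟩ := hP q hq
        by_cases hqp : q = p
        · rw [if_pos hqp, hqp]
          have h5 : ∑ j ∈ range N, f p j * f p j ≤ ∑ j ∈ range N, (1 : ℝ) := by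
            refine Finset.sum_le_sum fun j _ => ?_
            have h6 := n3_abs n' d p a1.one_le (j : ZMod p)
            rw [← abs_mul_abs_self]
            exact mul_le_one₀ h6 (abs_nonneg _) h6
          have h7 : ∑ j ∈ range N, (1 : ℝ) = N := by simp
          rw [h7] at h5
          have h8 : 0 ≤ (Q : ℝ) ^ 2 := by positivity
          linarith
        · rw [if_neg hqp, zero_add]
          have h5 := n3_off p q n' d N a1 b1 (Ne.symm hqp) a2 a4
          have h6 : (p : ℝ) * q ≤ (Q : ℝ) ^ 2 := by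
            rw [pow_two]
            have h7 : (p : ℝ) ≤ Q := by exact_mod_cast a3
            have h8 : (q : ℝ) ≤ Q := by exact_mod_cast b3
            gcongr
          exact (le_abs_self _).trans (h5.trans h6)
      refine (Finset.sum_le_sum h4).trans ?_
      rw [Finset.sum_add_distrib, Finset.sum_ite_eq' , if_pos hp, Finset.sum_const, nsmul_eq_mul]
    refine (Finset.sum_le_sum h3).trans ?_
    rw [Finset.sum_const, nsmul_eq_mul]
    apply le_of_eq
    ring
  have h5 := hlow2.trans hup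
  have h6 : (P.card : ℝ) * ((E.card : ℝ) * P.card) ≤
      (P.card : ℝ) * (9 * ((N : ℝ) + P.card * (Q : ℝ) ^ 2)) := by
    nlinarith
  exact le_of_mul_le_mul_left h6 hPpos

end AP4
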