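import Pool.Agent.AP4.N1
import Pool.Agent.AP4.N3

/-!
[AP4-N4] the sieve bound for the multiplicities.

`S_sieve`.  Let `t = k/c` (real), `t ≥ Q^3 ≥ 1`; `structure_S` gives `E ⊆ range N`, `N = k/c + 1 ≤ 2 t`
(real).  If `M d Q ≤ 1`: `S ≤ N ≤ 2 t ≤ 135 t / 4`.  If `M d Q ≥ 2`: `P = (pr d Q) \ {2}`,
`|P| ≥ M - 1`, `|P| ≤ Q`: `S |P| ≤ 9 (2 t + Q * Q^2) ≤ 27 t`, so `S ≤ 27 t/(M-1) ≤ 135 t/(M+3)` as
`M + 3 ≤ 5 (M - 1)`.
-/

namespace AP4
open Finset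

theorem S_sieve {n d k : ℕ} (h : Sol n d k) {c Q : ℕ} (hc : 1 ≤ c) (hQ : 1 ≤ Q)
    (hk : c * Q ^ 3 ≤ k) :
    (S n d k c : ℝ) ≤ 135 * ((k : ℝ) / c) / ((M d Q : ℝ) + 3) := by
  obtain ⟨n', hn', hcop, E, hE, hEc, hsq⟩ := structure_S h hc
  have hc0 : (0 : ℝ) < c := by exact_mod_cast hc
  set t : ℝ := (k : ℝ) / c with ht
  have hQR : (1 : ℝ) ≤ Q := by exact_mod_cast hQ
  have htQ : (Q : ℝ) ^ 3 ≤ t := by
    rw [ht, le_div_iff₀ hc0]
    have : ((c * Q ^ 3 : ℕ) : ℝ) ≤ k := by exact_mod_cast hk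
    push_cast at this
    linarith
  have ht1 : 1 ≤ t := le_trans (one_le_pow₀ hQR) htQ
  have hN : (((k / c + 1 : ℕ) : ℕ) : ℝ) ≤ 2 * t := by
    have : ((k / c : ℕ) : ℝ) ≤ t := Nat.cast_div_le
    push_cast
    linarith
  have hcard : (S n d k c : ℝ) ≤ 2 * t := by
    have h1 : E.card ≤ k / c + 1 := by
      simpa using card_le_card hE
    have h2 : (S n d k c : ℝ) ≤ ((k / c + 1 : ℕ) : ℝ) := by
      rw [← hEc]; exact_mod_cast h1
    linarith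
  have hM0 : (0 : ℝ) ≤ M d Q := Nat.cast_nonneg _
  rw [le_div_iff₀ (by linarith)]
  rcases le_or_gt (M d Q) 1 with hM | hM
  · have hM' : (M d Q : ℝ) ≤ 1 := by exact_mod_cast hM
    have hS0 : (0 : ℝ) ≤ S n d k c := Nat.cast_nonneg _
    nlinarith
  · -- the odd primes
    set P : Finset ℕ := (pr d Q).erase 2 with hP
    have hPc : M d Q ≤ P.card + 1 := by
      have := Finset.pred_card_le_card_erase (s := pr d Q) (a := 2)
      rw [← hP] at this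
      unfold M
      omega
    have hPprop : ∀ p ∈ P, p.Prime ∧ p ≠ 2 ∧ p ≤ Q ∧ ¬ p ∣ d := by
      intro p hp
      rw [hP, mem_erase, pr, mem_filter, Nat.mem_primesLE] at hp
      exact ⟨hp.2.1.2, hp.1, hp.2.1.1, hp.2.2⟩
    have hPQ : P.card ≤ Q := by
      have h1 : P ⊆ Icc 1 Q := by
        intro p hp
        have := hPprop p hp
        exact mem_Icc.2 ⟨this.1.one_lt.le, this.2.2.1⟩
      simpa using card_le_card h1
    have hs := sieve P Q d n' (k / c + 1) hPprop E hE hsq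
    rw [hEc] at hs
    have hPQ' : (P.card : ℝ) ≤ Q := by exact_mod_cast hPQ
    have hPc' : (M d Q : ℝ) ≤ P.card + 1 := by exact_mod_cast hPc
    have hM' : (2 : ℝ) ≤ M d Q := by exact_mod_cast hM
    have hS0 : (0 : ℝ) ≤ S n d k c := Nat.cast_nonneg _
    have h1 : (P.card : ℝ) * (Q : ℝ) ^ 2 ≤ (Q : ℝ) ^ 3 := by
      have : (P.card : ℝ) * (Q : ℝ) ^ 2 ≤ Q * (Q : ℝ) ^ 2 :=
        mul_le_mul_of_nonneg_right hPQ' (by positivity)
      nlinarith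
    have h2 : (S n d k c : ℝ) * P.card ≤ 27 * t := by
      have : 9 * ((((k / c + 1 : ℕ) : ℕ) : ℝ) + P.card * (Q : ℝ) ^ 2) ≤ 27 * t := by linarith
      linarith
    have h3 : (M d Q : ℝ) + 3 ≤ 5 * P.card := by linarith
    have h4 : (S n d k c : ℝ) * ((M d Q : ℝ) + 3) ≤ (S n d k c : ℝ) * (5 * P.card) :=
      mul_le_mul_of_nonneg_left h3 hS0
    nlinarith

end AP4
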