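import Pool.Agent.AP4.N7a

/-!
[AP4-N7c] the small `c`.
-/

namespace AP4
open Finset

theorem n7c_log_le_exp (L : ℝ) : L ≤ 8 * Real.exp (L / 8) := by
  have h := Real.add_one_le_exp (L / 8)
  linarith

theorem small : ∃ C : ℝ, 0 < C ∧ ∀ (ε : ℝ) (N0 d k : ℕ) (S : ℕ → ℕ), HS ε N0 d k S →
    ∀ q : ℕ, q ^ 4 ≤ k → k < (q + 1) ^ 4 →
      ∑ c ∈ (cop d k).filter (fun c => c ≤ q ∧ c * N0 ≤ k),
        (S c : ℝ) * Real.log ((k : ℝ) / c) ≤
          C * k * (ε * Real.log (135 / ε) * (A d k + 1) + 1) := by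
  obtain ⟨C3, hC3, hm3⟩ := m3
  refine ⟨9720 * C3, by positivity, ?_⟩
  intro ε N0 d k S hS q hq1 hq2
  have hk1 : 1 ≤ k := hS.k1
  have hq : 1 ≤ q := by
    rcases Nat.eq_zero_or_pos q with h | h
    · subst h
      simp at hq2
      omega
    · exact h
  have hqk : q ≤ k := le_trans (Nat.le_self_pow (by norm_num) q) hq1
  have hkR : (1 : ℝ) ≤ k := by exact_mod_cast hk1
  have hqR : (1 : ℝ) ≤ q := by exact_mod_cast hq
  have hε0 := hS.ε0
  have hε1 := hS.ε1
  set m : ℝ := (M d q : ℝ) + 3 with hmdef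
  have hm : 3 ≤ m := by
    have : (0 : ℝ) ≤ (M d q : ℝ) := Nat.cast_nonneg _
    linarith
  have hmpos : 0 < m := by linarith
  set w : ℝ := min (135 / m) ε with hwdef
  have hw0 : 0 ≤ w := le_min (by positivity) hε0.le
  set κ : ℝ := ε * Real.log (135 / ε) with hκdef
  have hκ0 : 0 ≤ κ := kappa_nonneg hε0 hε1
  have hA0 : 0 ≤ A d k := A_nonneg d k
  -- bound of each term
  have hlogk : Real.log k ≤ 4 * Real.log ((q : ℝ) + 1) := by
    have h1 : (k : ℝ) ≤ ((q : ℝ) + 1) ^ 4 := by exact_mod_cast hq2.le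
    have h2 := Real.log_le_log (by linarith) h1
    rw [Real.log_pow] at h2
    simpa using h2
  have hlogq1 : 0 ≤ Real.log ((q : ℝ) + 1) := Real.log_nonneg (by linarith)
  have hterm : ∀ c ∈ (cop d k).filter (fun c => c ≤ q ∧ c * N0 ≤ k),
      (S c : ℝ) * Real.log ((k : ℝ) / c) ≤ (k * w * (4 * Real.log ((q : ℝ) + 1))) * ((1 : ℝ) / c) := by
    intro c hc
    rw [Finset.mem_filter, cop, Finset.mem_filter, Finset.mem_Icc] at hc
    obtain ⟨⟨⟨hc1, hck⟩, -⟩, hcq, hcN⟩ := hc
    have hcR : (1 : ℝ) ≤ c := by exact_mod_cast hc1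
    have hcpos : (0 : ℝ) < c := by linarith
    have e1 : (S c : ℝ) ≤ 135 * ((k : ℝ) / c) / m := by
      refine hS.h1 c q hc1 hq ?_
      calc c * q ^ 3 ≤ q * q ^ 3 := Nat.mul_le_mul_right _ hcq
        _ = q ^ 4 := by ring
        _ ≤ k := hq1
    have e2 : (S c : ℝ) ≤ ε * ((k : ℝ) / c) := hS.h2 c hc1 hcN
    have hkc : 0 ≤ (k : ℝ) / c := by positivity
    have e3 : (S c : ℝ) ≤ ((k : ℝ) / c) * w := by
      rw [hwdef, mul_min_of_nonneg _ _ hkc]
      refine le_min ?_ ?_
      · calc (S c : ℝ) ≤ 135 * ((k : ℝ) / c) / m := e1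
          _ = (k : ℝ) / c * (135 / m) := by ring
      · calc (S c : ℝ) ≤ ε * ((k : ℝ) / c) := e2
          _ = (k : ℝ) / c * ε := by ring
    have e4 : Real.log ((k : ℝ) / c) ≤ 4 * Real.log ((q : ℝ) + 1) := by
      refine le_trans (Real.log_le_log (by positivity) ?_) hlogk
      exact div_le_self (by linarith) hcR
    have e5 : 0 ≤ Real.log ((k : ℝ) / c) := by
      refine Real.log_nonneg ?_
      rw [one_le_div hcpos]
      exact_mod_cast hck
    calc (S c : ℝ) * Real.log ((k : ℝ) / c)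
        ≤ (((k : ℝ) / c) * w) * (4 * Real.log ((q : ℝ) + 1)) :=
          mul_le_mul e3 e4 e5 (by positivity)
      _ = (k * w * (4 * Real.log ((q : ℝ) + 1))) * ((1 : ℝ) / c) := by ring
  have hsum1 : ∑ c ∈ (cop d k).filter (fun c => c ≤ q ∧ c * N0 ≤ k),
        (S c : ℝ) * Real.log ((k : ℝ) / c) ≤
      (k * w * (4 * Real.log ((q : ℝ) + 1))) * G d q := by
    refine le_trans (Finset.sum_le_sum hterm) ?_
    rw [← Finset.mul_sum]
    refine mul_le_mul_of_nonneg_left ?_ (by positivity)
    refine le_trans ?_ (harm d q)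
    refine Finset.sum_le_sum_of_subset_of_nonneg ?_ (fun i _ _ => by positivity)
    intro c hc
    rw [Finset.mem_filter, cop, Finset.mem_filter, Finset.mem_Icc] at hc
    rw [cop, Finset.mem_filter, Finset.mem_Icc]
    exact ⟨⟨hc.1.1.1, hc.2.1⟩, hc.1.2⟩
  have hG : G d q ≤ C3 * Real.log m := hm3 d q
  have hlogm : 1 ≤ Real.log m := one_le_log3 (M d q)
  have hsum2 : ∑ c ∈ (cop d k).filter (fun c => c ≤ q ∧ c * N0 ≤ k),
        (S c : ℝ) * Real.log ((k : ℝ) / c) ≤
      4 * C3 * k * ((w * Real.log m) * Real.log ((q : ℝ) + 1)) := by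
    refine le_trans hsum1 ?_
    calc (k * w * (4 * Real.log ((q : ℝ) + 1))) * G d q
        ≤ (k * w * (4 * Real.log ((q : ℝ) + 1))) * (C3 * Real.log m) :=
          mul_le_mul_of_nonneg_left hG (by positivity)
      _ = 4 * C3 * k * ((w * Real.log m) * Real.log ((q : ℝ) + 1)) := by ring
  set L : ℝ := Real.log q with hL
  have hL0 : 0 ≤ L := Real.log_nonneg hqR
  have hlq : Real.log ((q : ℝ) + 1) ≤ L + 1 := by
    have h1 : (q : ℝ) + 1 ≤ q * 2 := by linarith
    have h2 := Real.log_le_log (by linarith) h1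
    rw [Real.log_mul (by linarith) (by norm_num)] at h2
    have h3 : Real.log 2 ≤ 1 := by
      have := Real.log_two_lt_d9
      linarith
    linarith
  have hmain : (w * Real.log m) * Real.log ((q : ℝ) + 1) ≤ 2430 * (κ * (A d k + 1) + 1) := by
    by_cases hcase : L / 2 ≤ A d k + 5
    · have e1 : w * Real.log m ≤ κ := min_log hm hε0 hε1
      have e2 : Real.log ((q : ℝ) + 1) ≤ 11 * (A d k + 1) := by linarith
      calc (w * Real.log m) * Real.log ((q : ℝ) + 1) ≤ κ * (11 * (A d k + 1)) :=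
            mul_le_mul e1 e2 hlogq1 hκ0
        _ = 11 * (κ * (A d k + 1)) := by ring
        _ ≤ 2430 * (κ * (A d k + 1) + 1) := by
            have : 0 ≤ κ * (A d k + 1) := by positivity
            linarith
    · push Not at hcase
      have h4 := m4 d hq
      have hAq : A d q ≤ A d k := A_mono d hqk
      have hlm : L / 4 ≤ Real.log m := by
        have : Real.log (q : ℝ) - A d q - 5 ≤ 2 * Real.log m := h4
        rw [← hL] at this
        linarith
      have e1 : w * Real.log m ≤ 270 * Real.exp (-(L / 8)) := by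
        have h1 : w ≤ 135 / m := min_le_left _ _
        have h2 : w * Real.log m ≤ 135 * (Real.log m / m) := by
          calc w * Real.log m ≤ (135 / m) * Real.log m :=
                mul_le_mul_of_nonneg_right h1 (by linarith)
            _ = 135 * (Real.log m / m) := by ring
        have h3 := log_div_le hmpos
        have h5 : 2 / Real.sqrt m ≤ 2 * Real.exp (-(L / 8)) := by
          have h6 : Real.exp (L / 8) ≤ Real.sqrt m := by
            rw [← Real.exp_log hmpos, Real.sqrt_eq_rpow, ← Real.exp_mul]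
            refine Real.exp_le_exp.mpr ?_
            linarith
          rw [Real.exp_neg, div_eq_mul_inv]
          refine mul_le_mul_of_nonneg_left ?_ (by norm_num)
          exact inv_anti₀ (Real.exp_pos _) h6
        linarith
      have e2 : Real.log ((q : ℝ) + 1) ≤ 9 * Real.exp (L / 8) := by
        have h1 := n7c_log_le_exp L
        have h2 : 1 ≤ Real.exp (L / 8) := Real.one_le_exp (by linarith)
        linarith
      have e3 : (w * Real.log m) * Real.log ((q : ℝ) + 1) ≤ 2430 := by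
        calc (w * Real.log m) * Real.log ((q : ℝ) + 1)
            ≤ (270 * Real.exp (-(L / 8))) * (9 * Real.exp (L / 8)) :=
              mul_le_mul e1 e2 hlogq1 (by positivity)
          _ = 2430 * (Real.exp (-(L / 8)) * Real.exp (L / 8)) := by ring
          _ = 2430 := by
              rw [← Real.exp_add]
              simp
      have : 0 ≤ κ * (A d k + 1) := by positivity
      linarith
  calc ∑ c ∈ (cop d k).filter (fun c => c ≤ q ∧ c * N0 ≤ k),
        (S c : ℝ) * Real.log ((k : ℝ) / c)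
      ≤ 4 * C3 * k * ((w * Real.log m) * Real.log ((q : ℝ) + 1)) := hsum2
    _ ≤ 4 * C3 * k * (2430 * (κ * (A d k + 1) + 1)) :=
        mul_le_mul_of_nonneg_left hmain (by positivity)
    _ = 9720 * C3 * k * (κ * (A d k + 1) + 1) := by ring

end AP4
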