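import Pool.Agent.AP4.N7b
import Pool.Agent.AP4.N7c

/-!
[AP4-N7d] the main sum estimate, from `block`, `small`, `a_sum`.

Choose `q` with `q^4 ≤ k < (q+1)^4` (e.g. `q = Nat.sqrt (Nat.sqrt k)`).  Split `cop d k` into
 (i) `c * N0 > k`: `0 ≤ log (k/c) ≤ log N0` and `∑ S c ≤ k` (`h0`): at most `k log N0`;
 (ii) `c ≤ q`, `c * N0 ≤ k`: `small`;
 (iii) `q < c`, `c * N0 ≤ k`: split by `j = Nat.log 2 (k/c) ∈ range (Nat.log 2 k + 1)`; `block`; the sum
 over `j` of `a ε d (j/3)` is at most `3 * ∑_{i ≤ (Nat.log 2 k)/3} a ε d i` (each `i` has at most three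
 `j`, `a_nonneg`), and `2^((Nat.log 2 k)/3) ≤ k`; `a_sum`.
-/

namespace AP4
open Finset

theorem n7d_sum_div3 (f : ℕ → ℝ) (hf : ∀ i, 0 ≤ f i) (J : ℕ) :
    ∑ j ∈ range (J + 1), f (j / 3) ≤ 3 * ∑ i ∈ range (J / 3 + 1), f i := by
  have hmaps : ∀ j ∈ range (J + 1), j / 3 ∈ range (J / 3 + 1) := by
    intro j hj
    rw [mem_range] at hj ⊢
    omega
  rw [← Finset.sum_fiberwise_of_maps_to hmaps, Finset.mul_sum]
  apply Finset.sum_le_sum
  intro i _
  have h1 : ∑ j ∈ (range (J + 1)).filter (fun j => j / 3 = i), f (j / 3) =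
      ∑ j ∈ (range (J + 1)).filter (fun j => j / 3 = i), f i := by
    apply Finset.sum_congr rfl
    intro j hj
    rw [(mem_filter.1 hj).2]
  rw [h1, Finset.sum_const, nsmul_eq_mul]
  have h2 : ((range (J + 1)).filter (fun j => j / 3 = i)).card ≤ 3 := by
    have : (range (J + 1)).filter (fun j => j / 3 = i) ⊆ Ico (3 * i) (3 * i + 3) := by
      intro j hj
      have := (mem_filter.1 hj).2
      rw [mem_Ico]
      omega
    calc _ ≤ (Ico (3 * i) (3 * i + 3)).card := card_le_card this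
      _ = 3 := by simp
  have h3 : (((range (J + 1)).filter (fun j => j / 3 = i)).card : ℝ) ≤ 3 := by exact_mod_cast h2
  exact mul_le_mul_of_nonneg_right h3 (hf i)

theorem J_lemma : ∃ C : ℝ, 0 < C ∧ ∀ (ε : ℝ) (N0 d k : ℕ) (S : ℕ → ℕ), HS ε N0 d k S →
      ∑ c ∈ cop d k, (S c : ℝ) * Real.log ((k : ℝ) / c) ≤
          k * (C * (ε * Real.log (135 / ε) * (A d k + 1) + 1) + Real.log N0) := by
  obtain ⟨C1, hC1, hblock⟩ := block
  obtain ⟨C2, hC2, hsmall⟩ := small
  obtain ⟨C3, hC3, hasum⟩ := a_sum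
  refine ⟨C2 + C1 * 3 * C3, by positivity, fun ε N0 d k S h => ?_⟩
  have hk1 := h.k1
  have hk0 : (0 : ℝ) < k := by exact_mod_cast hk1
  set X : ℝ := ε * Real.log (135 / ε) * (A d k + 1) + 1 with hX
  -- the choice of q
  obtain ⟨q, hq1, hq2⟩ : ∃ q : ℕ, q ^ 4 ≤ k ∧ k < (q + 1) ^ 4 := by
    refine ⟨Nat.sqrt (Nat.sqrt k), ?_, ?_⟩
    · have h1 : Nat.sqrt (Nat.sqrt k) ^ 2 ≤ Nat.sqrt k := Nat.sqrt_le' _
      have h2 : Nat.sqrt k ^ 2 ≤ k := Nat.sqrt_le' _
      calc Nat.sqrt (Nat.sqrt k) ^ 4 = (Nat.sqrt (Nat.sqrt k) ^ 2) ^ 2 := by ring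
        _ ≤ Nat.sqrt k ^ 2 := Nat.pow_le_pow_left h1 2
        _ ≤ k := h2
    · have h1 : Nat.sqrt k < (Nat.sqrt (Nat.sqrt k) + 1) ^ 2 := Nat.lt_succ_sqrt' _
      have h2 : k < (Nat.sqrt k + 1) ^ 2 := Nat.lt_succ_sqrt' _
      calc k < (Nat.sqrt k + 1) ^ 2 := h2
        _ ≤ ((Nat.sqrt (Nat.sqrt k) + 1) ^ 2) ^ 2 := Nat.pow_le_pow_left h1 2
        _ = (Nat.sqrt (Nat.sqrt k) + 1) ^ 4 := by ring
  -- nonnegativity of the terms
  have hmem : ∀ c ∈ cop d k, 1 ≤ c ∧ c ≤ k := by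
    intro c hc
    rw [cop, mem_filter, mem_Icc] at hc
    exact hc.1
  have hterm : ∀ c ∈ cop d k, 0 ≤ (S c : ℝ) * Real.log ((k : ℝ) / c) := by
    intro c hc
    obtain ⟨h1, h2⟩ := hmem c hc
    have hc0 : (0 : ℝ) < c := by exact_mod_cast h1
    have : (1 : ℝ) ≤ (k : ℝ) / c := by
      rw [le_div_iff₀ hc0, one_mul]; exact_mod_cast h2
    exact mul_nonneg (Nat.cast_nonneg _) (Real.log_nonneg this)
  -- the splitting
  have hsplit : ∑ c ∈ cop d k, (S c : ℝ) * Real.log ((k : ℝ) / c) =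
      ∑ c ∈ (cop d k).filter (fun c => ¬ c * N0 ≤ k), (S c : ℝ) * Real.log ((k : ℝ) / c) +
      (∑ c ∈ (cop d k).filter (fun c => c ≤ q ∧ c * N0 ≤ k), (S c : ℝ) * Real.log ((k : ℝ) / c) +
      ∑ c ∈ (cop d k).filter (fun c => q < c ∧ c * N0 ≤ k),
        (S c : ℝ) * Real.log ((k : ℝ) / c)) := by
    rw [← Finset.sum_filter_add_sum_filter_not (cop d k) (fun c => c * N0 ≤ k), add_comm]
    congr 1
    rw [← Finset.sum_filter_add_sum_filter_not ((cop d k).filter (fun c => c * N0 ≤ k))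
      (fun c => c ≤ q), Finset.filter_filter, Finset.filter_filter]
    congr 1
    · apply Finset.sum_congr _ (fun _ _ => rfl)
      apply Finset.filter_congr
      intro c _
      exact and_comm
    · apply Finset.sum_congr _ (fun _ _ => rfl)
      apply Finset.filter_congr
      intro c _
      rw [and_comm, not_le]
  -- part (i)
  have p1 : ∑ c ∈ (cop d k).filter (fun c => ¬ c * N0 ≤ k), (S c : ℝ) * Real.log ((k : ℝ) / c) ≤
      k * Real.log N0 := by
    have hN : (1 : ℝ) ≤ N0 := by exact_mod_cast h.N1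
    have hlogN : 0 ≤ Real.log N0 := Real.log_nonneg hN
    calc _ ≤ ∑ c ∈ (cop d k).filter (fun c => ¬ c * N0 ≤ k), (S c : ℝ) * Real.log N0 := by
          apply Finset.sum_le_sum
          intro c hc
          rw [mem_filter] at hc
          obtain ⟨h1, h2⟩ := hmem c hc.1
          have hc0 : (0 : ℝ) < c := by exact_mod_cast h1
          apply mul_le_mul_of_nonneg_left _ (Nat.cast_nonneg _)
          apply Real.log_le_log (by positivity)
          rw [div_le_iff₀ hc0]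
          have : k ≤ c * N0 := (not_le.1 hc.2).le
          have : (k : ℝ) ≤ c * N0 := by exact_mod_cast this
          linarith
      _ = (∑ c ∈ (cop d k).filter (fun c => ¬ c * N0 ≤ k), (S c : ℝ)) * Real.log N0 := by
          rw [Finset.sum_mul]
      _ ≤ k * Real.log N0 := by
          apply mul_le_mul_of_nonneg_right _ hlogN
          have h1 : ∑ c ∈ (cop d k).filter (fun c => ¬ c * N0 ≤ k), S c ≤ k := by
            refine le_trans (Finset.sum_le_sum_of_subset ?_) h.h0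
            exact (Finset.filter_subset _ _).trans (Finset.filter_subset _ _)
          exact_mod_cast h1
  -- part (ii)
  have p2 := hsmall ε N0 d k S h q hq1 hq2
  -- part (iii)
  have p3 : ∑ c ∈ (cop d k).filter (fun c => q < c ∧ c * N0 ≤ k),
      (S c : ℝ) * Real.log ((k : ℝ) / c) ≤ C1 * k * (3 * (C3 * X)) := by
    have hmaps : ∀ c ∈ (cop d k).filter (fun c => q < c ∧ c * N0 ≤ k),
        Nat.log 2 (k / c) ∈ range (Nat.log 2 k + 1) := by
      intro c _
      rw [mem_range]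
      have : Nat.log 2 (k / c) ≤ Nat.log 2 k := Nat.log_mono_right (Nat.div_le_self k c)
      omega
    rw [← Finset.sum_fiberwise_of_maps_to hmaps]
    have h1 : ∀ j ∈ range (Nat.log 2 k + 1),
        ∑ c ∈ ((cop d k).filter (fun c => q < c ∧ c * N0 ≤ k)).filter
          (fun c => Nat.log 2 (k / c) = j), (S c : ℝ) * Real.log ((k : ℝ) / c) ≤
        C1 * k * a ε d (j / 3) := by
      intro j _
      have := hblock ε N0 d k S h j q hq1 hq2
      rw [Finset.filter_filter]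
      refine le_trans (le_of_eq ?_) this
      apply Finset.sum_congr _ (fun _ _ => rfl)
      apply Finset.filter_congr
      intro c _
      tauto
    refine le_trans (Finset.sum_le_sum h1) ?_
    rw [← Finset.mul_sum]
    apply mul_le_mul_of_nonneg_left _ (by positivity)
    refine le_trans (n7d_sum_div3 (a ε d) (a_nonneg h.ε0 d) _) ?_
    apply mul_le_mul_of_nonneg_left _ (by norm_num)
    apply hasum ε d k _ h.ε0 h.ε1
    calc 2 ^ (Nat.log 2 k / 3) ≤ 2 ^ (Nat.log 2 k) :=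
          Nat.pow_le_pow_right (by norm_num) (Nat.div_le_self _ _)
      _ ≤ k := Nat.pow_log_le_self 2 (by omega)
  rw [hsplit]
  have e : (k : ℝ) * ((C2 + C1 * 3 * C3) * X + Real.log N0) =
      k * Real.log N0 + (C2 * k * X + C1 * k * (3 * (C3 * X))) := by ring
  rw [e]
  exact add_le_add p1 (add_le_add p2 p3)

end AP4
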