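import Pool.Agent.AP4.N8
import Pool.Agent.AP4.N4
import Pool.Agent.SZ4.Main

/-!
[AP4-N9] few squares in progressions, from Szemeredi's theorem for 4-term progressions and Fermat.

`SQ`: `N0` from `SZ4.sz4 ε`; a 4-term progression `j, j+r, j+2r, j+3r` in `E` with `r > 0` gives the
squares `n' + j d`, …, with difference `r d > 0`: `fermat4`.

`S_small`: apply `SQ` with `ε/2`; `structure_S` gives `E ⊆ range (k/c + 1)`,
`E.card ≤ (ε/2)(k/c + 1)` (nat division) `≤ (ε/2) (2 k/c) = ε k/c` as `k/c ≥ N0 ≥ 1`.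
-/

namespace AP4
open Finset

theorem SQ {ε : ℝ} (hε : 0 < ε) : ∃ N0 : ℕ, ∀ N : ℕ, N0 ≤ N → ∀ n' d : ℕ, 0 < d →
    ∀ E : Finset ℕ, E ⊆ range N → (∀ j ∈ E, IsSquare (n' + j * d)) → (E.card : ℝ) ≤ ε * N := by
  obtain ⟨N0, hN0⟩ := SZ4.sz4 hε
  refine ⟨N0, fun N hN n' d hd E hE hsq => hN0 N hN E hE ?_⟩
  intro a r hr h0 h1 h2 h3
  refine fermat4 (n' + a * d) (r * d) (Nat.mul_pos hr hd) (hsq _ h0) ?_ ?_ ?_
  · have := hsq _ h1
    rwa [show n' + (a + r) * d = n' + a * d + r * d by ring] at this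
  · have := hsq _ h2
    rwa [show n' + (a + 2 * r) * d = n' + a * d + 2 * (r * d) by ring] at this
  · have := hsq _ h3
    rwa [show n' + (a + 3 * r) * d = n' + a * d + 3 * (r * d) by ring] at this

theorem S_small {ε : ℝ} (hε : 0 < ε) : ∃ N0 : ℕ, 1 ≤ N0 ∧ ∀ n d k c : ℕ, Sol n d k → 1 ≤ c →
    c * N0 ≤ k → (S n d k c : ℝ) ≤ ε * ((k : ℝ) / c) := by
  obtain ⟨N0, hN0⟩ := SQ (half_pos hε)
  refine ⟨N0 + 1, by omega, fun n d k c h hc hk => ?_⟩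
  obtain ⟨n', hn', hcop, E, hE, hEc, hsq⟩ := structure_S h hc
  have hkc : N0 + 1 ≤ k / c := by
    rw [Nat.le_div_iff_mul_le (by omega)]
    linarith [Nat.mul_comm c (N0 + 1)]
  have h1 := hN0 (k / c + 1) (by omega) n' d h.d0 E hE hsq
  rw [hEc] at h1
  have hc0 : (0 : ℝ) < c := by exact_mod_cast hc
  have h2 : ((k / c : ℕ) : ℝ) ≤ (k : ℝ) / c := Nat.cast_div_le
  have h3 : (1 : ℝ) ≤ ((k / c : ℕ) : ℝ) := by exact_mod_cast (by omega : 1 ≤ k / c)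
  have h4 : (((k / c + 1 : ℕ) : ℕ) : ℝ) ≤ 2 * ((k : ℝ) / c) := by
    push_cast
    linarith
  calc (S n d k c : ℝ) ≤ ε / 2 * (((k / c + 1 : ℕ) : ℕ) : ℝ) := h1
    _ ≤ ε / 2 * (2 * ((k : ℝ) / c)) := by gcongr
    _ = ε * ((k : ℝ) / c) := by ring

end AP4
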