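import Pool.Agent.AP4.N2
import Pool.Agent.AP4.N4
import Pool.Agent.AP4.N7d
import Pool.Agent.AP4.N9

/-!
[AP4-N10] assembly.

`A_bound`.  `C` from `J_lemma`; `ε` from `exists_eps` with `κ = 1/(2 C)`; `N0` from `S_small`.  For a
solution, `HS ε N0 d k (S n d k)` holds (`sum_S_le`, `S_sieve`, `S_small`).  `upper` and `lower` give
`k * A d k ≤ 4 k + ∑_{c ∈ cop d k} S c log (k/c) ≤ 4 k + k (C ((1/(2C)) (A d k + 1) + 1) + log N0)`, so
`A d k ≤ 4 + (A d k + 1)/2 + C + log N0`, so `A d k ≤ 9 + 2 C + 2 log N0`.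

`even_exponents`.  `mA w → ∞` (`mA_bounds`), choose `w` with `mA w > C`; `D = ∏ p ∈ Nat.primesLE w, p`.
Suppose a solution, `D ∣ d`.  `sol_of_eq`.  If `k ≥ w` then
`A d k ≥ A d w = mA w > C`, contradiction to `A_bound`.  If `k < w` all primes `< k` divide `d`, so
by `square_of_all` `n, n + d, n + 2 d, n + 3 d` are squares (`k ≥ 4`): `fermat4`.
-/

namespace AP4
open Finset

theorem A_bound : ∃ C : ℝ, 0 < C ∧ ∀ n d k : ℕ, Sol n d k → 1 ≤ k → A d k ≤ C := by
  obtain ⟨C, hC, hJ⟩ := J_lemma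
  obtain ⟨ε, hε, hε1, hεk⟩ := exists_eps (κ := 1 / (2 * C)) (by positivity)
  obtain ⟨N0, hN1, hN0⟩ := S_small hε
  have hlogN : 0 ≤ Real.log N0 := Real.log_natCast_nonneg _
  refine ⟨9 + 2 * C + 2 * Real.log N0, by positivity, fun n d k h hk => ?_⟩
  have hHS : HS ε N0 d k (S n d k) :=
    { ε0 := hε
      ε1 := hε1
      N1 := hN1
      d1 := h.d0
      k1 := hk
      h0 := sum_S_le n d k
      h1 := fun c Q hc hQ hcQ => S_sieve h hc hQ hcQ
      h2 := fun c hc hcN => hN0 n d k c h hc hcN }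
  have hJ' := hJ ε N0 d k (S n d k) hHS
  have hu := upper h hk
  have hl := lower h hk
  have hk0 : (0 : ℝ) < k := by exact_mod_cast hk
  have hA := A_nonneg d k
  have h1 : (k : ℝ) * A d k ≤
      k * (4 + (C * (ε * Real.log (135 / ε) * (A d k + 1) + 1) + Real.log N0)) := by
    nlinarith
  have h2 : A d k ≤ 4 + (C * (ε * Real.log (135 / ε) * (A d k + 1) + 1) + Real.log N0) :=
    le_of_mul_le_mul_left h1 hk0
  have h3 : C * (ε * Real.log (135 / ε) * (A d k + 1) + 1) ≤
      C * (1 / (2 * C) * (A d k + 1) + 1) := by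
    have : ε * Real.log (135 / ε) * (A d k + 1) ≤ 1 / (2 * C) * (A d k + 1) :=
      mul_le_mul_of_nonneg_right hεk (by linarith)
    exact mul_le_mul_of_nonneg_left (by linarith) hC.le
  have h4 : C * (1 / (2 * C) * (A d k + 1) + 1) = (A d k + 1) / 2 + C := by
    field_simp
  linarith

/-- The main theorem: all even exponents, all `k ≥ 4`. -/
theorem even_exponents : ∃ C : ℝ, ∀ n d k b y l : ℕ, 0 < n → 0 < d → 0 < b → 0 < y →
    Nat.Coprime n d → 4 ≤ k → Even l → (∀ p : ℕ, p.Prime → p ∣ b → p ≤ k) →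
    ((∀ p : ℕ, p.Prime → p ≤ k → p ∣ d) ∨ C < ∑ p ∈ (Nat.primesLE k).filter (fun p => p ∣ d),
      Real.log p / p) →
    ∏ i ∈ range k, (n + i * d) ≠ b * y ^ l := by
  obtain ⟨C, hC, hA⟩ := A_bound
  refine ⟨C, ?_⟩
  intro n d k b y l hn hd hb hy hcop hk hl hP hcase heq
  have hsol := sol_of_eq hn hd hb hy hcop hl hP heq
  rcases hcase with hall | hbig
  · have s0 := square_of_all hsol hall (i := 0) (by omega)
    have s1 := square_of_all hsol hall (i := 1) (by omega)
    have s2 := square_of_all hsol hall (i := 2) (by omega)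
    have s3 := square_of_all hsol hall (i := 3) (by omega)
    simp only [zero_mul, add_zero, one_mul] at s0 s1
    exact fermat4 n d hd s0 s1 s2 s3
  · have h1 := hA n d k hsol (by omega)
    unfold A at h1
    linarith

/-- In particular all `d` divisible by one fixed integer. -/
theorem even_exponents_dvd : ∃ D : ℕ, 0 < D ∧ ∀ n d k b y l : ℕ, 0 < n → 0 < d → 0 < b → 0 < y →
    Nat.Coprime n d → D ∣ d → 4 ≤ k → Even l → (∀ p : ℕ, p.Prime → p ∣ b → p ≤ k) →
    ∏ i ∈ range k, (n + i * d) ≠ b * y ^ l := by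
  obtain ⟨C, hC⟩ := even_exponents
  obtain ⟨w, hw⟩ := exists_nat_gt (Real.exp (C + 3))
  have hw0 : (0 : ℝ) < w := lt_trans (Real.exp_pos _) hw
  have hw1 : 1 ≤ w := by exact_mod_cast hw0
  have hlog : C + 3 < Real.log w := by
    rw [Real.lt_log_iff_exp_lt hw0]; exact hw
  have hmA := (Pool.Agent.Lib.helper94.ANT.mA_bounds hw1).1
  refine ⟨∏ p ∈ Nat.primesLE w, p, ?_, ?_⟩
  · exact Finset.prod_pos fun p hp => (Nat.mem_primesLE.1 hp).2.pos
  intro n d k b y l hn hd hb hy hcop hD hk hl hP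
  have hdiv : ∀ p : ℕ, p.Prime → p ≤ w → p ∣ d := fun p hp hpw =>
    (Finset.dvd_prod_of_mem (fun p => p) (Nat.mem_primesLE.2 ⟨hpw, hp⟩)).trans hD
  apply hC n d k b y l hn hd hb hy hcop hk hl hP
  rcases le_or_gt w k with hwk | hwk
  · right
    have h2 := A_mono d hwk
    have h3 : A d w = Pool.Agent.Lib.helper94.ANT.mA w := by
      unfold A Pool.Agent.Lib.helper94.ANT.mA
      congr 1
      apply Finset.filter_true_of_mem
      intro p hp
      exact hdiv p (Nat.mem_primesLE.1 hp).2 (Nat.mem_primesLE.1 hp).1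
    unfold A at h2 h3
    linarith
  · left
    exact fun p hp hpk => hdiv p hp (by omega)

end AP4
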