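import Pool.Agent.AP4.N1
import Pool.Agent.Lib.helper94.ANT.Mertens

/-!
[AP4-N2] upper and lower bound for `∑ log sp`.

`upper`: `log (sp k m) = ∑_{p < k} (v_p(m) % 2) log p ≤ ∑_{p < k, p ∣ m} log p` (`m ≠ 0`).  Exchange the
sums: for `p ∣ d` no term is divisible by `p`; for `p ∤ d` the number of `i < k` with `p ∣ n + i d` is
`≤ k / p + 1` (one residue class mod `p`; `Nat.count`/`Nat.Ico_filter_modEq_card` or a direct
injection).  So the sum is
`≤ ∑_{p < k, p ∤ d} log p (k/p + 1) ≤ k (mA k - A d k) + θ(k)`, `mA k ≤ log k + 2`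
(`Pool.Agent.Lib.helper94.ANT.mA_bounds`), `θ(k) ≤ log 4 * k`
(`Chebyshev.theta_le_log4_mul_x`), `log 4 ≤ 2`.

`lower`: for each `i` with `s = sp k (n + i d)`: `log s = log k - log (k/s)`, and `log (k/s) ≤ 0` unless
`s < k`.  So `log s ≥ log k - (if s ≤ k then log (k/s) else 0)`.  Group by the value `c = s`
(`1 ≤ c ≤ k`, coprime to `d` by `sp_coprime`).
-/

namespace AP4
open Finset

theorem n2_log_sp (k m : ℕ) : Real.log (sp k m) ≤
    ∑ p ∈ Nat.primesLE k, (if p ∣ m then Real.log p else 0) := by
  unfold sp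
  rw [Nat.cast_prod, Real.log_prod]
  · apply Finset.sum_le_sum
    intro p hp
    rw [Nat.cast_pow, Real.log_pow]
    have hl : 0 ≤ Real.log p := Real.log_natCast_nonneg p
    split_ifs with h
    · have h1 : m.factorization p % 2 ≤ 1 := by omega
      have h2 : ((m.factorization p % 2 : ℕ) : ℝ) ≤ 1 := by exact_mod_cast h1
      nlinarith
    · rw [Nat.factorization_eq_zero_of_not_dvd h]
      simp
  · intro p hp
    have := ((Nat.mem_primesLE.1 hp).2).ne_zero
    positivity

theorem n2_count {n d k p : ℕ} (hp : p.Prime) (hpd : ¬ p ∣ d) :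
    ((range k).filter (fun i => p ∣ n + i * d)).card ≤ k / p + 1 := by
  have h := Finset.card_le_card_of_injOn (s := (range k).filter (fun i => p ∣ n + i * d))
    (t := range (k / p + 1)) (fun i => i / p) ?_ ?_
  · rwa [Finset.card_range] at h
  · intro i hi
    rw [Finset.mem_coe, Finset.mem_filter, Finset.mem_range] at hi
    rw [Finset.mem_coe, Finset.mem_range]
    exact Nat.lt_succ_of_le (Nat.div_le_div_right hi.1.le)
  · intro i hi j hj hij
    rw [Finset.mem_coe, Finset.mem_filter] at hi hj
    simp only at hij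
    have h1 : (n + i * d) ≡ (n + j * d) [MOD p] :=
      ((Nat.modEq_zero_iff_dvd).2 hi.2).trans ((Nat.modEq_zero_iff_dvd).2 hj.2).symm
    have h2 : i * d ≡ j * d [MOD p] := Nat.ModEq.add_left_cancel' n h1
    have h3 : i ≡ j [MOD p] := by
      apply Nat.ModEq.cancel_right_of_coprime _ h2
      exact (Nat.Prime.coprime_iff_not_dvd hp).2 hpd
    have h4 : i % p = j % p := h3
    rw [← Nat.div_add_mod i p, ← Nat.div_add_mod j p, h4, hij]

theorem upper {n d k : ℕ} (h : Sol n d k) (hk : 1 ≤ k) :
    ∑ i ∈ range k, Real.log (sp k (n + i * d)) ≤ k * (Real.log k + 4 - A d k) := by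
  have hk0 : (0 : ℝ) < k := by exact_mod_cast hk
  have h1 : ∑ i ∈ range k, Real.log (sp k (n + i * d)) ≤
      ∑ p ∈ Nat.primesLE k, ∑ i ∈ range k, (if p ∣ n + i * d then Real.log p else 0) := by
    rw [Finset.sum_comm]
    exact Finset.sum_le_sum fun i _ => n2_log_sp k (n + i * d)
  have h2 : ∀ p ∈ Nat.primesLE k,
      ∑ i ∈ range k, (if p ∣ n + i * d then Real.log p else 0) ≤
      (if p ∣ d then 0 else k * (Real.log p / p)) + Real.log p := by
    intro p hp
    have hpp := (Nat.mem_primesLE.1 hp).2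
    have hp0 : (0 : ℝ) < p := by exact_mod_cast hpp.pos
    have hl : 0 ≤ Real.log p := Real.log_natCast_nonneg p
    rw [← Finset.sum_filter, Finset.sum_const, nsmul_eq_mul]
    split_ifs with hpd
    · have : (range k).filter (fun i => p ∣ n + i * d) = ∅ := by
        rw [Finset.filter_eq_empty_iff]
        intro i _ hi
        have h3 : p ∣ n := (Nat.dvd_add_left (Dvd.dvd.mul_left hpd i)).1 hi
        exact hpp.one_lt.ne' (Nat.eq_one_of_dvd_coprimes h.cop h3 hpd)
      rw [this]
      simpa using hl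
    · have h3 := n2_count (n := n) (k := k) hpp hpd
      have h4 : (((range k).filter (fun i => p ∣ n + i * d)).card : ℝ) ≤ (k : ℝ) / p + 1 := by
        calc (((range k).filter (fun i => p ∣ n + i * d)).card : ℝ) ≤ ((k / p + 1 : ℕ) : ℝ) := by
              exact_mod_cast h3
          _ = ((k / p : ℕ) : ℝ) + 1 := by push_cast; ring
          _ ≤ (k : ℝ) / p + 1 := by
              have := @Nat.cast_div_le ℝ _ _ _ k p
              linarith
      calc _ ≤ ((k : ℝ) / p + 1) * Real.log p := mul_le_mul_of_nonneg_right h4 hl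
        _ = _ := by ring
  have h3 : ∑ p ∈ Nat.primesLE k, Real.log p ≤ Real.log 4 * k := by
    have h4 := Chebyshev.theta_le_log4_mul_x (x := (k : ℝ)) hk0.le
    refine le_trans ?_ h4
    rw [Chebyshev.theta, Nat.floor_natCast]
    apply Finset.sum_le_sum_of_subset_of_nonneg
    · intro p hp
      rw [Nat.mem_primesLE] at hp
      rw [Finset.mem_filter, Finset.mem_Ioc]
      exact ⟨⟨hp.2.pos, hp.1⟩, hp.2⟩
    · intro p _ _
      exact Real.log_natCast_nonneg p
  have h4 : ∑ p ∈ Nat.primesLE k, (if p ∣ d then 0 else k * (Real.log p / p)) ≤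
      k * (Pool.Agent.Lib.helper94.ANT.mA k - A d k) := by
    have e1 : Pool.Agent.Lib.helper94.ANT.mA k - A d k =
        ∑ p ∈ (Nat.primesLE k).filter (fun p => ¬ p ∣ d), Real.log p / p := by
      unfold Pool.Agent.Lib.helper94.ANT.mA A
      rw [sub_eq_iff_eq_add, add_comm, Finset.sum_filter_add_sum_filter_not]
    rw [e1, Finset.mul_sum, Finset.sum_filter]
    have e2 : ∀ p ∈ Nat.primesLE k, (0 : ℝ) ≤
        (if ¬ p ∣ d then (k : ℝ) * (Real.log p / p) else 0) := by
      intro p _
      split_ifs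
      · exact le_rfl
      · exact mul_nonneg hk0.le (div_nonneg (Real.log_natCast_nonneg p) (Nat.cast_nonneg p))
    calc ∑ p ∈ Nat.primesLE k, (if p ∣ d then 0 else k * (Real.log p / p))
        = ∑ p ∈ Nat.primesLE k, (if ¬ p ∣ d then (k : ℝ) * (Real.log p / p) else 0) := by
          apply Finset.sum_congr rfl
          intro p _
          split_ifs <;> rfl
      _ ≤ ∑ p ∈ Nat.primesLE k, (if ¬ p ∣ d then (k : ℝ) * (Real.log p / p) else 0) := by
          apply Finset.sum_le_sum_of_subset_of_nonneg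
          · intro p hp
            rw [Nat.mem_primesLE] at hp
            rw [Nat.mem_primesLE]
            exact ⟨hp.1, hp.2⟩
          · intro p hp _
            exact e2 p hp
  have h5 := (Pool.Agent.Lib.helper94.ANT.mA_bounds hk).2
  have h6 : Real.log 4 ≤ 2 := by
    have : Real.log 4 = 2 * Real.log 2 := by
      rw [show (4 : ℝ) = 2 ^ 2 by norm_num, Real.log_pow]
      norm_num
    have := Real.log_two_lt_d9
    linarith
  calc ∑ i ∈ range k, Real.log (sp k (n + i * d))
      ≤ ∑ p ∈ Nat.primesLE k, ((if p ∣ d then 0 else k * (Real.log p / p)) + Real.log p) :=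
        h1.trans (Finset.sum_le_sum h2)
    _ ≤ k * (Pool.Agent.Lib.helper94.ANT.mA k - A d k) + Real.log 4 * k := by
        rw [Finset.sum_add_distrib]
        exact add_le_add h4 h3
    _ ≤ k * (Real.log k + 4 - A d k) := by nlinarith

theorem lower {n d k : ℕ} (h : Sol n d k) (hk : 1 ≤ k) :
    k * Real.log k - ∑ c ∈ cop d k, (S n d k c : ℝ) * Real.log ((k : ℝ) / c) ≤
      ∑ i ∈ range k, Real.log (sp k (n + i * d)) := by
  have hk0 : (0 : ℝ) < k := by exact_mod_cast hk
  have h1 : ∀ i ∈ range k, Real.log k - (if sp k (n + i * d) ≤ k then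
      Real.log ((k : ℝ) / (sp k (n + i * d) : ℕ)) else 0) ≤ Real.log (sp k (n + i * d)) := by
    intro i _
    have hs : (0 : ℝ) < sp k (n + i * d) := by exact_mod_cast sp_pos k (n + i * d)
    split_ifs with h2
    · rw [Real.log_div hk0.ne' hs.ne']
      linarith
    · rw [sub_zero]
      apply Real.log_le_log hk0
      exact_mod_cast (not_le.1 h2).le
  have h2 := Finset.sum_le_sum h1
  rw [Finset.sum_sub_distrib, Finset.sum_const, Finset.card_range, nsmul_eq_mul,
    ← Finset.sum_filter] at h2
  refine le_trans (le_of_eq ?_) h2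
  congr 1
  have hmaps : ∀ i ∈ (range k).filter (fun i => sp k (n + i * d) ≤ k),
      sp k (n + i * d) ∈ cop d k := by
    intro i hi
    rw [Finset.mem_filter, Finset.mem_range] at hi
    rw [cop, Finset.mem_filter, Finset.mem_Icc]
    exact ⟨⟨sp_pos k _, hi.2⟩, sp_coprime h hi.1⟩
  rw [← Finset.sum_fiberwise_of_maps_to hmaps]
  apply Finset.sum_congr rfl
  intro c hc
  rw [cop, Finset.mem_filter, Finset.mem_Icc] at hc
  have h3 : ((range k).filter (fun i => sp k (n + i * d) ≤ k)).filter
      (fun i => sp k (n + i * d) = c) = (range k).filter (fun i => sp k (n + i * d) = c) := by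
    rw [Finset.filter_filter]
    apply Finset.filter_congr
    intro i _
    constructor
    · exact fun h => h.2
    · intro h
      exact ⟨by rw [h]; exact hc.1.2, h⟩
  rw [h3]
  calc (S n d k c : ℝ) * Real.log ((k : ℝ) / c)
      = ∑ _i ∈ (range k).filter (fun i => sp k (n + i * d) = c), Real.log ((k : ℝ) / c) := by
        rw [Finset.sum_const, nsmul_eq_mul, S]
    _ = _ := by
        apply Finset.sum_congr rfl
        intro i hi
        rw [(Finset.mem_filter.1 hi).2]

end AP4
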