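import Pool.Agent.AP4.Defs
import Pool.Agent.Lib.helper94.ANT.Mertens
import Pool.Agent.Lib.helper71.Mertens

/-!
[AP4-N5] Mertens type estimates for `G`, `M`, `A`.  Uniform in `d` (`d` arbitrary).

Tools: `Pool.Agent.Lib.helper94.ANT.mA_bounds` (`log n - 3 ≤ mA n ≤ log n + 2`,
`mA n = ∑ p ∈ Nat.primesLE n, log p / p`), `Pool.Agent.Lib.helper71.V` (`V x = ∏_{p ≤ x} (1 - 1/p)` over
`PI 0 x`), `V_mul_log_le : V x * log x ≤ 1`, `inv_V_le : (V x)⁻¹ ≤ exp 16 * (1 + log x)`.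

`m2`.  `G d y / G d x = ∏_{x < p ≤ y, p ∤ d} (1 - 1/p)⁻¹ ≤ ∏_{x < p ≤ y} (1 - 1/p)⁻¹ = V x / V y`
`≤ (1/log x) exp 16 (1 + log y)` and `1 + log y ≤ 3 log y` for `y ≥ 2`.  `C = 3 exp 16`.

`m3`.  Let `m = M d x`.  The primes of `pr d x` which are `≤ m + 2` contribute at most
`(V (m+2))⁻¹ ≤ exp 16 (1 + log (m+2))`; there are at most `m` others, all `> m + 2`, and
`(1 - 1/p)⁻¹ = 1 + 1/(p-1) ≤ exp (1/(m+2))`, so they contribute at most `e`.  `log (m+3) ≥ 1`.

`m4`.  Let `m = M d x`, `log x - 3 ≤ mA x = A d x + ∑_{p ∈ pr d x} log p / p`; the primes `≤ m + 3`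
contribute at most `mA (m+3) ≤ log (m+3) + 2`; the others (at most `m` of them) contribute at most
`log (m+3)/(m+3)` each (`log t / t` is decreasing for `t ≥ e`; `Real.log_div_self_antitoneOn`).
-/

namespace AP4
open Finset

theorem n5_mem_pr {d x p : ℕ} : p ∈ pr d x ↔ (p ≤ x ∧ p.Prime) ∧ ¬ p ∣ d := by
  rw [pr, Finset.mem_filter, Nat.mem_primesLE]

theorem n5_pr_mono (d : ℕ) {x y : ℕ} (h : x ≤ y) : pr d x ⊆ pr d y := by
  intro p hp
  rw [n5_mem_pr] at hp ⊢
  exact ⟨⟨hp.1.1.trans h, hp.1.2⟩, hp.2⟩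

theorem n5_term {p : ℕ} (hp : p.Prime) : 1 ≤ (1 - 1 / (p : ℝ))⁻¹ := by
  have h0 := Pool.Agent.Lib.helper71.one_sub_inv_pos hp
  rw [one_le_inv₀ h0]
  have : 0 ≤ 1 / (p : ℝ) := by positivity
  linarith

theorem n5_one_le_prod {s : Finset ℕ} (h : ∀ p ∈ s, p.Prime) :
    1 ≤ ∏ p ∈ s, (1 - 1 / (p : ℝ))⁻¹ :=
  Finset.prod_induction (fun p : ℕ => (1 - 1 / (p : ℝ))⁻¹) (fun x => 1 ≤ x)
    (fun _ _ ha hb => one_le_mul_of_one_le_of_one_le ha hb) le_rfl (fun p hp => n5_term (h p hp))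

theorem n5_prod_mono {s t : Finset ℕ} (hst : s ⊆ t) (h : ∀ p ∈ t, p.Prime) :
    ∏ p ∈ s, (1 - 1 / (p : ℝ))⁻¹ ≤ ∏ p ∈ t, (1 - 1 / (p : ℝ))⁻¹ := by
  rw [← Finset.prod_sdiff hst]
  have h1 := n5_one_le_prod (s := t \ s) (fun p hp => h p (Finset.mem_sdiff.1 hp).1)
  have h2 : 0 ≤ ∏ p ∈ s, (1 - 1 / (p : ℝ))⁻¹ :=
    zero_le_one.trans (n5_one_le_prod (fun p hp => h p (hst hp)))
  exact le_mul_of_one_le_left h2 h1

theorem A_nonneg (d x : ℕ) : 0 ≤ A d x :=
  Finset.sum_nonneg fun p _ => div_nonneg (Real.log_natCast_nonneg p) (Nat.cast_nonneg p)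

theorem A_mono (d : ℕ) {x y : ℕ} (h : x ≤ y) : A d x ≤ A d y := by
  unfold A
  apply Finset.sum_le_sum_of_subset_of_nonneg
  · intro p hp
    rw [Finset.mem_filter, Nat.mem_primesLE] at hp ⊢
    exact ⟨⟨hp.1.1.trans h, hp.1.2⟩, hp.2⟩
  · intro p _ _
    exact div_nonneg (Real.log_natCast_nonneg p) (Nat.cast_nonneg p)

theorem one_le_G (d x : ℕ) : 1 ≤ G d x :=
  n5_one_le_prod (fun _ hp => (n5_mem_pr.1 hp).1.2)

theorem G_mono (d : ℕ) {x y : ℕ} (h : x ≤ y) : G d x ≤ G d y :=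
  n5_prod_mono (n5_pr_mono d h) (fun _ hp => (n5_mem_pr.1 hp).1.2)

theorem M_mono (d : ℕ) {x y : ℕ} (h : x ≤ y) : M d x ≤ M d y :=
  Finset.card_le_card (n5_pr_mono d h)

theorem G_two_le (d : ℕ) : G d 2 ≤ 2 := by
  have h1 : pr d 2 ⊆ {2} := by
    intro p hp
    rw [n5_mem_pr] at hp
    rw [Finset.mem_singleton]
    exact le_antisymm hp.1.1 hp.1.2.two_le
  have h2 := n5_prod_mono h1 (fun p hp => by
    rw [Finset.mem_singleton] at hp
    rw [hp]
    exact Nat.prime_two)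
  refine h2.trans ?_
  rw [Finset.prod_singleton]
  norm_num

theorem one_le_log3 (m : ℕ) : 1 ≤ Real.log ((m : ℝ) + 3) := by
  have hm : (0 : ℝ) ≤ m := Nat.cast_nonneg m
  rw [Real.le_log_iff_exp_le (by linarith)]
  have := Real.exp_one_lt_three
  linarith

theorem m2 : ∃ C : ℝ, 0 < C ∧ ∀ d x y : ℕ, 2 ≤ x → x ≤ y →
    G d y * Real.log x ≤ C * (G d x * Real.log y) := by
  refine ⟨3 * Real.exp 16, by positivity, ?_⟩
  intro d x y hx hxy
  have hy : 2 ≤ y := hx.trans hxy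
  have hG : G d y ≤ G d x * ∏ p ∈ Pool.Agent.Lib.helper71.PI x y, (1 - 1 / (p : ℝ))⁻¹ := by
    unfold G
    rw [← Finset.prod_sdiff (n5_pr_mono d hxy), mul_comm]
    apply mul_le_mul_of_nonneg_left
    · apply n5_prod_mono
      · intro p hp
        rw [Finset.mem_sdiff, n5_mem_pr, n5_mem_pr] at hp
        rw [Pool.Agent.Lib.helper71.mem_PI]
        refine ⟨?_, hp.1.1.1, hp.1.1.2⟩
        by_contra hcon
        exact hp.2 ⟨⟨not_lt.1 hcon, hp.1.1.2⟩, hp.1.2⟩
      · intro p hp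
        exact Pool.Agent.Lib.helper71.PI_prime hp
    · exact zero_le_one.trans (one_le_G d x)
  have hVx := Pool.Agent.Lib.helper71.V_pos x
  have hVy := Pool.Agent.Lib.helper71.V_pos y
  have hP : ∏ p ∈ Pool.Agent.Lib.helper71.PI x y, (1 - 1 / (p : ℝ))⁻¹ =
      Pool.Agent.Lib.helper71.V x * (Pool.Agent.Lib.helper71.V y)⁻¹ := by
    have h1 : Pool.Agent.Lib.helper71.V y = Pool.Agent.Lib.helper71.V x *
        ∏ p ∈ Pool.Agent.Lib.helper71.PI x y, (1 - 1 / (p : ℝ)) :=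
      Pool.Agent.Lib.helper71.prod_PI (Nat.zero_le x) hxy _
    rw [Finset.prod_inv_distrib, h1, mul_inv, mul_inv_cancel_left₀ hVx.ne']
  have hl1 := Pool.Agent.Lib.helper71.V_mul_log_le x (by omega)
  have hl2 := Pool.Agent.Lib.helper71.inv_V_le y hy
  have hlx : 0 ≤ Real.log x := Real.log_natCast_nonneg x
  have hly : 1 + Real.log y ≤ 3 * Real.log y := by
    have h2 : Real.log 2 ≤ Real.log y := Real.log_le_log (by norm_num) (by exact_mod_cast hy)
    have := Real.log_two_gt_d9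
    linarith
  have hGx : 0 ≤ G d x := zero_le_one.trans (one_le_G d x)
  have hVi : 0 ≤ (Pool.Agent.Lib.helper71.V y)⁻¹ := by positivity
  calc G d y * Real.log x ≤ (G d x * (Pool.Agent.Lib.helper71.V x *
        (Pool.Agent.Lib.helper71.V y)⁻¹)) * Real.log x := by
        rw [← hP]
        exact mul_le_mul_of_nonneg_right hG hlx
    _ = G d x * ((Pool.Agent.Lib.helper71.V x * Real.log x) *
        (Pool.Agent.Lib.helper71.V y)⁻¹) := by ring
    _ ≤ G d x * (1 * (Real.exp 16 * (3 * Real.log y))) := by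
        apply mul_le_mul_of_nonneg_left _ hGx
        apply mul_le_mul hl1 _ hVi zero_le_one
        exact hl2.trans (mul_le_mul_of_nonneg_left hly (Real.exp_pos _).le)
    _ = 3 * Real.exp 16 * (G d x * Real.log y) := by ring

theorem m3 : ∃ C : ℝ, 0 < C ∧ ∀ d x : ℕ, G d x ≤ C * Real.log ((M d x : ℝ) + 3) := by
  refine ⟨2 * Real.exp 16 * Real.exp 1, by positivity, ?_⟩
  intro d x
  set m := M d x with hm
  have hm0 : (0 : ℝ) ≤ m := Nat.cast_nonneg m
  have hl := one_le_log3 m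
  have hsplit : G d x = (∏ p ∈ (pr d x).filter (fun p => p ≤ m + 2), (1 - 1 / (p : ℝ))⁻¹) *
      ∏ p ∈ (pr d x).filter (fun p => ¬ p ≤ m + 2), (1 - 1 / (p : ℝ))⁻¹ := by
    unfold G
    rw [Finset.prod_filter_mul_prod_filter_not]
  have h1 : ∏ p ∈ (pr d x).filter (fun p => p ≤ m + 2), (1 - 1 / (p : ℝ))⁻¹ ≤
      Real.exp 16 * (2 * Real.log ((m : ℝ) + 3)) := by
    calc ∏ p ∈ (pr d x).filter (fun p => p ≤ m + 2), (1 - 1 / (p : ℝ))⁻¹
        ≤ ∏ p ∈ Pool.Agent.Lib.helper71.PI 0 (m + 2), (1 - 1 / (p : ℝ))⁻¹ := by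
          apply n5_prod_mono
          · intro p hp
            rw [Finset.mem_filter, n5_mem_pr] at hp
            rw [Pool.Agent.Lib.helper71.mem_PI]
            exact ⟨hp.1.1.2.pos, hp.2, hp.1.1.2⟩
          · intro p hp
            exact Pool.Agent.Lib.helper71.PI_prime hp
      _ = (Pool.Agent.Lib.helper71.V (m + 2))⁻¹ := by
          rw [Finset.prod_inv_distrib, Pool.Agent.Lib.helper71.V]
      _ ≤ Real.exp 16 * (1 + Real.log ((m + 2 : ℕ) : ℝ)) :=
          Pool.Agent.Lib.helper71.inv_V_le (m + 2) (by omega)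
      _ ≤ Real.exp 16 * (2 * Real.log ((m : ℝ) + 3)) := by
          apply mul_le_mul_of_nonneg_left _ (Real.exp_pos _).le
          have : Real.log ((m + 2 : ℕ) : ℝ) ≤ Real.log ((m : ℝ) + 3) := by
            apply Real.log_le_log
            · push_cast; linarith
            · push_cast; linarith
          linarith
  have h2 : ∏ p ∈ (pr d x).filter (fun p => ¬ p ≤ m + 2), (1 - 1 / (p : ℝ))⁻¹ ≤ Real.exp 1 := by
    calc ∏ p ∈ (pr d x).filter (fun p => ¬ p ≤ m + 2), (1 - 1 / (p : ℝ))⁻¹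
        ≤ ∏ _p ∈ (pr d x).filter (fun p => ¬ p ≤ m + 2), Real.exp (1 / ((m : ℝ) + 2)) := by
          apply Finset.prod_le_prod
          · intro p hp
            rw [Finset.mem_filter, n5_mem_pr] at hp
            exact zero_le_one.trans (n5_term hp.1.1.2)
          · intro p hp
            rw [Finset.mem_filter, n5_mem_pr] at hp
            have hp3 : m + 3 ≤ p := by omega
            have hp3' : (m : ℝ) + 3 ≤ p := by exact_mod_cast hp3
            have hp1 : (0 : ℝ) < p - 1 := by linarith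
            have hp0 : (0 : ℝ) < p := by linarith
            have e : (1 - 1 / (p : ℝ))⁻¹ = 1 / ((p : ℝ) - 1) + 1 := by
              have h3 : (1 - 1 / (p : ℝ)) ≠ 0 :=
                (Pool.Agent.Lib.helper71.one_sub_inv_pos hp.1.1.2).ne'
              field_simp
              ring
            rw [e]
            refine (Real.add_one_le_exp _).trans (Real.exp_le_exp.2 ?_)
            apply one_div_le_one_div_of_le
            · linarith
            · linarith
      _ = Real.exp (1 / ((m : ℝ) + 2)) ^ ((pr d x).filter (fun p => ¬ p ≤ m + 2)).card := by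
          rw [Finset.prod_const]
      _ = Real.exp (((pr d x).filter (fun p => ¬ p ≤ m + 2)).card * (1 / ((m : ℝ) + 2))) := by
          rw [Real.exp_nat_mul]
      _ ≤ Real.exp 1 := by
          apply Real.exp_le_exp.2
          have hc : (((pr d x).filter (fun p => ¬ p ≤ m + 2)).card : ℝ) ≤ m := by
            exact_mod_cast Finset.card_filter_le _ _
          rw [mul_one_div, div_le_one (by linarith)]
          linarith
  have h0 : 0 ≤ ∏ p ∈ (pr d x).filter (fun p => ¬ p ≤ m + 2), (1 - 1 / (p : ℝ))⁻¹ :=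
    zero_le_one.trans (n5_one_le_prod (fun p hp => by
      rw [Finset.mem_filter, n5_mem_pr] at hp
      exact hp.1.1.2))
  rw [hsplit]
  calc _ ≤ (Real.exp 16 * (2 * Real.log ((m : ℝ) + 3))) * Real.exp 1 :=
        mul_le_mul h1 h2 h0 (by positivity)
    _ = 2 * Real.exp 16 * Real.exp 1 * Real.log ((m : ℝ) + 3) := by ring

theorem m4 (d : ℕ) {x : ℕ} (hx : 1 ≤ x) :
    Real.log x - A d x - 5 ≤ 2 * Real.log ((M d x : ℝ) + 3) := by
  set m := M d x with hm
  have hm0 : (0 : ℝ) ≤ m := Nat.cast_nonneg m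
  have hl := one_le_log3 m
  have h1 := (Pool.Agent.Lib.helper94.ANT.mA_bounds hx).1
  have h2 : Pool.Agent.Lib.helper94.ANT.mA x = A d x + ∑ p ∈ pr d x, Real.log p / p := by
    unfold Pool.Agent.Lib.helper94.ANT.mA A pr
    rw [Finset.sum_filter_add_sum_filter_not]
  have h3 : ∑ p ∈ pr d x, Real.log p / p =
      (∑ p ∈ (pr d x).filter (fun p => p ≤ m + 3), Real.log p / p) +
      ∑ p ∈ (pr d x).filter (fun p => ¬ p ≤ m + 3), Real.log p / p := by
    rw [Finset.sum_filter_add_sum_filter_not]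
  have h4 : ∑ p ∈ (pr d x).filter (fun p => p ≤ m + 3), Real.log p / p ≤
      Real.log ((m : ℝ) + 3) + 2 := by
    have h5 := (Pool.Agent.Lib.helper94.ANT.mA_bounds (n := m + 3) (by omega)).2
    push_cast at h5
    refine le_trans ?_ h5
    unfold Pool.Agent.Lib.helper94.ANT.mA
    apply Finset.sum_le_sum_of_subset_of_nonneg
    · intro p hp
      rw [Finset.mem_filter, n5_mem_pr] at hp
      rw [Nat.mem_primesLE]
      exact ⟨hp.2, hp.1.1.2⟩
    · intro p _ _
      exact div_nonneg (Real.log_natCast_nonneg p) (Nat.cast_nonneg p)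
  have h5 : ∑ p ∈ (pr d x).filter (fun p => ¬ p ≤ m + 3), Real.log p / p ≤
      Real.log ((m : ℝ) + 3) := by
    calc ∑ p ∈ (pr d x).filter (fun p => ¬ p ≤ m + 3), Real.log p / p
        ≤ ∑ _p ∈ (pr d x).filter (fun p => ¬ p ≤ m + 3),
          Real.log ((m : ℝ) + 3) / ((m : ℝ) + 3) := by
          apply Finset.sum_le_sum
          intro p hp
          rw [Finset.mem_filter, n5_mem_pr] at hp
          have hp3 : m + 3 ≤ p := by omega
          have hp3' : (m : ℝ) + 3 ≤ p := by exact_mod_cast hp3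
          have he := Real.exp_one_lt_three
          exact Real.log_div_self_antitoneOn (show Real.exp 1 ≤ (m : ℝ) + 3 by linarith)
            (show Real.exp 1 ≤ (p : ℝ) by linarith) hp3'
      _ = ((pr d x).filter (fun p => ¬ p ≤ m + 3)).card *
          (Real.log ((m : ℝ) + 3) / ((m : ℝ) + 3)) := by
          rw [Finset.sum_const, nsmul_eq_mul]
      _ ≤ m * (Real.log ((m : ℝ) + 3) / ((m : ℝ) + 3)) := by
          apply mul_le_mul_of_nonneg_right
          · exact_mod_cast Finset.card_filter_le _ _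
          · positivity
      _ ≤ Real.log ((m : ℝ) + 3) := by
          rw [mul_div_assoc', div_le_iff₀ (by linarith)]
          nlinarith
  rw [h2, h3] at h1
  linarith

end AP4
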