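import Pool.Agent.AP4.N5
import Pool.Agent.Lib.helper71.Euler

/-!
[AP4-N6] integers coprime to `d`.

`harm`.  Every `c ∈ cop d x` is a product of primes of `pr d x` (`c ∈ Nat.factoredNumbers (pr d x)`),
so `∑ 1/c ≤ ∑_{m ∈ factoredNumbers (pr d x)} 1/m = ∏_{p ∈ pr d x} (1 - 1/p)⁻¹`
(`EulerProduct.summable_and_hasSum_factoredNumbers_prod_filter_prime_geometric`, with the completely
multiplicative function `m ↦ 1/m`, and `sum_le_hasSum`).

`HT`.  `f(m) = 1` if `Coprime m d`, `f(ab) ≤ f(b)`.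
`∑_{m ≤ z} f(m) log m = ∑_{m ≤ z} f(m) ∑_{ab = m} Λ(a) ≤ ∑_{b ≤ z} f(b) ψ(z/b) ≤ C0 z ∑_{b ≤ z} f(b)/b ≤ C0 z G d z`
(`ArithmeticFunction.vonMangoldt_sum`, `Chebyshev.psi_le_const_mul_self`), and
`∑_{m ≤ z} f(m) log (z/m) ≤ ∑ f(m) z/m ≤ z G d z` (`log u ≤ u`).  Add: `(cop d z).card * log z ≤
(C0 + 1) z G d z`.
-/

namespace AP4
open Finset

theorem n6_mem_cop {d x c : ℕ} : c ∈ cop d x ↔ (1 ≤ c ∧ c ≤ x) ∧ Nat.Coprime c d := by
  rw [cop, Finset.mem_filter, Finset.mem_Icc]

theorem harm (d x : ℕ) : ∑ c ∈ cop d x, (1 : ℝ) / c ≤ G d x := by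
  have h := Pool.Agent.Lib.helper71.rankin (pr d x) (fun p hp => (n5_mem_pr.1 hp).1.2)
    (fun n => 1 / (n : ℝ)) (fun p => 1 / (p : ℝ)) (fun n => by positivity) (by simp)
    (fun p _ => by positivity)
    (fun p hp => by
      have h1 := Pool.Agent.Lib.helper71.one_sub_inv_pos (n5_mem_pr.1 hp).1.2
      linarith)
    (fun p _ m _ => by
      push_cast
      rw [one_div_mul_one_div]) x
  refine le_trans ?_ h
  apply Finset.sum_le_sum_of_subset_of_nonneg
  · intro c hc
    rw [n6_mem_cop] at hc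
    rw [Finset.mem_filter, Finset.mem_Icc]
    refine ⟨hc.1, ?_⟩
    intro p hp
    have hpp := Nat.prime_of_mem_primeFactors hp
    have hpc := Nat.dvd_of_mem_primeFactors hp
    rw [n5_mem_pr]
    refine ⟨⟨(Nat.le_of_dvd (by omega) hpc).trans hc.1.2, hpp⟩, ?_⟩
    intro hpd
    exact hpp.one_lt.ne' (Nat.eq_one_of_dvd_coprimes hc.2 hpc hpd)
  · intro n _ _
    positivity

theorem HT : ∃ C : ℝ, 0 < C ∧ ∀ d z : ℕ, 1 ≤ z →
    ((cop d z).card : ℝ) * Real.log z ≤ C * (z * G d z) := by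
  obtain ⟨C0, hC0, hψ⟩ : ∃ C0 : ℝ, 0 < C0 ∧ ∀ x : ℝ, 0 ≤ x → Chebyshev.psi x ≤ C0 * x :=
    ⟨Real.log 4 + 4, by positivity, fun x hx => Chebyshev.psi_le_const_mul_self hx⟩
  refine ⟨C0 + 1, by linarith, ?_⟩
  intro d z hz
  have hz0 : (0 : ℝ) < z := by exact_mod_cast hz
  have hharm := harm d z
  -- the sum of `log m`
  have h1 : ∑ m ∈ cop d z, Real.log m ≤ C0 * (z * G d z) := by
    have e1 : ∑ m ∈ cop d z, Real.log m =
        ∑ m ∈ cop d z, ∑ b ∈ m.divisors, ArithmeticFunction.vonMangoldt (m / b) := by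
      apply Finset.sum_congr rfl
      intro m _
      rw [← ArithmeticFunction.vonMangoldt_sum]
      exact (Nat.sum_div_divisors m (fun a => ArithmeticFunction.vonMangoldt a)).symm
    have e2 : ∑ m ∈ cop d z, ∑ b ∈ m.divisors, ArithmeticFunction.vonMangoldt (m / b) =
        ∑ b ∈ cop d z, ∑ m ∈ (cop d z).filter (fun m => b ∣ m),
          ArithmeticFunction.vonMangoldt (m / b) := by
      apply Finset.sum_comm'
      intro m b
      constructor
      · rintro ⟨hm, hb⟩
        rw [Nat.mem_divisors] at hb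
        have hm' := n6_mem_cop.1 hm
        have hb0 : b ≠ 0 := by
          rintro rfl
          exact hb.2 (Nat.eq_zero_of_zero_dvd hb.1)
        refine ⟨Finset.mem_filter.2 ⟨hm, hb.1⟩, n6_mem_cop.2 ⟨⟨by omega, ?_⟩, ?_⟩⟩
        · exact (Nat.le_of_dvd (by omega) hb.1).trans hm'.1.2
        · exact Nat.Coprime.coprime_dvd_left hb.1 hm'.2
      · rintro ⟨hm, hb⟩
        rw [Finset.mem_filter] at hm
        have hm' := n6_mem_cop.1 hm.1
        exact ⟨hm.1, Nat.mem_divisors.2 ⟨hm.2, by omega⟩⟩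
    rw [e1, e2]
    have e3 : ∀ b ∈ cop d z, ∑ m ∈ (cop d z).filter (fun m => b ∣ m),
          ArithmeticFunction.vonMangoldt (m / b) ≤ C0 * z * (1 / (b : ℝ)) := by
      intro b hb
      have hb' := n6_mem_cop.1 hb
      have hb0 : (0 : ℝ) < b := by
        have : 0 < b := hb'.1.1
        exact_mod_cast this
      have e4 : ∑ m ∈ (cop d z).filter (fun m => b ∣ m),
          ArithmeticFunction.vonMangoldt (m / b) ≤
          ∑ a ∈ Finset.Ioc 0 ⌊(z : ℝ) / b⌋₊, ArithmeticFunction.vonMangoldt a := by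
        have hinj : Set.InjOn (fun m : ℕ => m / b) ((cop d z).filter (fun m => b ∣ m)) := by
          intro m1 h1 m2 h2 h12
          rw [Finset.mem_coe, Finset.mem_filter] at h1 h2
          simp only at h12
          rw [← Nat.div_mul_cancel h1.2, h12, Nat.div_mul_cancel h2.2]
        rw [← Finset.sum_image (f := fun a => ArithmeticFunction.vonMangoldt a) hinj]
        apply Finset.sum_le_sum_of_subset_of_nonneg
        · intro a ha
          rw [Finset.mem_image] at ha
          obtain ⟨m, hm, rfl⟩ := ha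
          rw [Finset.mem_filter] at hm
          have hm' := n6_mem_cop.1 hm.1
          rw [Finset.mem_Ioc]
          constructor
          · exact Nat.div_pos (Nat.le_of_dvd (by omega) hm.2) hb'.1.1
          · rw [Nat.floor_div_natCast, Nat.floor_natCast]
            exact Nat.div_le_div_right hm'.1.2
        · intro a _ _
          exact ArithmeticFunction.vonMangoldt_nonneg
      refine e4.trans ?_
      have e5 := hψ ((z : ℝ) / b) (by positivity)
      unfold Chebyshev.psi at e5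
      refine e5.trans (le_of_eq ?_)
      ring
    calc _ ≤ ∑ b ∈ cop d z, C0 * z * (1 / (b : ℝ)) := Finset.sum_le_sum e3
      _ = C0 * z * ∑ b ∈ cop d z, (1 / (b : ℝ)) := by rw [Finset.mul_sum]
      _ ≤ C0 * z * G d z := mul_le_mul_of_nonneg_left hharm (by positivity)
      _ = C0 * (z * G d z) := by ring
  have h2 : ∑ m ∈ cop d z, (Real.log z - Real.log m) ≤ z * G d z := by
    calc ∑ m ∈ cop d z, (Real.log z - Real.log m) ≤ ∑ m ∈ cop d z, z * (1 / (m : ℝ)) := by
          apply Finset.sum_le_sum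
          intro m hm
          have hm' := n6_mem_cop.1 hm
          have hm0 : (0 : ℝ) < m := by
            have : 0 < m := hm'.1.1
            exact_mod_cast this
          rw [← Real.log_div hz0.ne' hm0.ne', mul_one_div]
          exact (Real.log_le_sub_one_of_pos (by positivity)).trans (by linarith)
      _ = z * ∑ m ∈ cop d z, (1 / (m : ℝ)) := by rw [Finset.mul_sum]
      _ ≤ z * G d z := mul_le_mul_of_nonneg_left hharm hz0.le
  rw [Finset.sum_sub_distrib, Finset.sum_const, nsmul_eq_mul] at h2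
  nlinarith

end AP4
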