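import Pool.Agent.AP4.N6

/-!
[AP4-N7a] numerical lemmas and the sum of the block bounds.

`min_log`.  For `m ≥ 3` and `0 < ε ≤ 1`: `min (135/m) ε * log m ≤ ε * log (135/ε)`.  If `m ≤ 135/ε`: the
minimum is `≤ ε` and `log m ≤ log (135/ε)`.  If `m > 135/ε ≥ 135 ≥ e`: `log t / t` is decreasing on
`[e, ∞)` (`Real.log_div_self_antitoneOn`), so `135 log m / m ≤ 135 log (135/ε)/(135/ε) = ε log (135/ε)`.

`log_div_le`.  `log m ≤ 2 √m` (`log √m ≤ √m`), so `log m / m ≤ 2/√m`.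

`a_sum`.  Let `m_i = M d (2^i) + 3`, `A = A d k`; `A d (2^i) ≤ A` for `i ≤ I` (`A_mono`).  Indices with
`i log 2 ≤ 2 (A + 5)`: there are at most `2(A+5)/log 2 + 1 ≤ 3 A + 16` of them, each `a ε d i ≤ ε log (135/ε)`
(`min_log`).  The others: by `m4` (`x = 2^i`) `i log 2 - A - 5 ≤ 2 log m_i` and
`A + 5 < (i log 2)/2`, so `log m_i ≥ (i log 2)/4`, `m_i ≥ 2^(i/4)`,
`a ε d i ≤ 135 log m_i / m_i ≤ 270/√m_i ≤ 270 * 2^(-i/8)`, and `∑_i 2^(-i/8)` is a convergent
geometric series.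
-/

namespace AP4
open Finset

theorem min_log {m ε : ℝ} (hm : 3 ≤ m) (h0 : 0 < ε) (h1 : ε ≤ 1) :
    min (135 / m) ε * Real.log m ≤ ε * Real.log (135 / ε) := by
  have hm0 : 0 < m := by linarith
  have hlm : 0 ≤ Real.log m := Real.log_nonneg (by linarith)
  rcases le_or_gt m (135 / ε) with h | h
  · exact mul_le_mul (min_le_right _ _) (Real.log_le_log hm0 h) hlm h0.le
  · have he : Real.exp 1 ≤ 135 / ε := by
      have := Real.exp_one_lt_d9
      have h2 : (135 : ℝ) ≤ 135 / ε := by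
        rw [le_div_iff₀ h0]
        nlinarith
      linarith
    have h3 := Real.log_div_self_antitoneOn (show (135 / ε) ∈ {x | Real.exp 1 ≤ x} from he)
      (show m ∈ {x | Real.exp 1 ≤ x} from he.trans h.le) h.le
    simp only at h3
    have h4 : min (135 / m) ε * Real.log m ≤ (135 / m) * Real.log m :=
      mul_le_mul_of_nonneg_right (min_le_left _ _) hlm
    have h5 : (135 / m) * Real.log m = 135 * (Real.log m / m) := by ring
    have h6 : 135 * (Real.log (135 / ε) / (135 / ε)) = ε * Real.log (135 / ε) := by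
      field_simp
    linarith

theorem log_div_le {m : ℝ} (hm : 0 < m) : Real.log m / m ≤ 2 / Real.sqrt m := by
  have hs : 0 < Real.sqrt m := Real.sqrt_pos.2 hm
  have h1 : Real.log (Real.sqrt m) ≤ Real.sqrt m - 1 := Real.log_le_sub_one_of_pos hs
  have h2 : Real.log m = 2 * Real.log (Real.sqrt m) := by
    rw [Real.log_sqrt hm.le]; ring
  have h3 : Real.sqrt m * Real.sqrt m = m := Real.mul_self_sqrt hm.le
  rw [div_le_div_iff₀ hm hs, h2]
  nlinarith

theorem kappa_nonneg {ε : ℝ} (h0 : 0 < ε) (h1 : ε ≤ 1) : 0 ≤ ε * Real.log (135 / ε) := by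
  refine mul_nonneg h0.le (Real.log_nonneg ?_)
  rw [le_div_iff₀ h0]
  linarith

/-- `ε log (135/ε) → 0` -/
theorem exists_eps {κ : ℝ} (hκ : 0 < κ) :
    ∃ ε : ℝ, 0 < ε ∧ ε ≤ 1 ∧ ε * Real.log (135 / ε) ≤ κ := by
  refine ⟨min 1 (κ ^ 2 / 540), by positivity, min_le_left _ _, ?_⟩
  set ε : ℝ := min 1 (κ ^ 2 / 540) with hε
  have h0 : 0 < ε := by positivity
  have hk : ε ≤ κ ^ 2 / 540 := min_le_right _ _
  have hx : 0 < 135 / ε := by positivity
  have h1 := log_div_le hx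
  have hs : 0 < Real.sqrt (135 / ε) := Real.sqrt_pos.2 hx
  have h2 : ε * Real.log (135 / ε) = 135 * (Real.log (135 / ε) / (135 / ε)) := by
    field_simp
  rw [h2]
  have h3 : 135 * (Real.log (135 / ε) / (135 / ε)) ≤ 135 * (2 / Real.sqrt (135 / ε)) := by
    linarith
  refine h3.trans ?_
  have h4 : 135 * (2 / Real.sqrt (135 / ε)) = 270 / Real.sqrt (135 / ε) := by ring
  rw [h4, div_le_iff₀ hs]
  have h5 : 270 / κ ≤ Real.sqrt (135 / ε) := by
    apply Real.le_sqrt_of_sq_le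
    rw [div_pow, div_le_div_iff₀ (by positivity) h0]
    nlinarith
  rw [div_le_iff₀ hκ] at h5
  linarith

theorem a_nonneg {ε : ℝ} (h0 : 0 < ε) (d i : ℕ) : 0 ≤ a ε d i := by
  unfold a
  refine mul_nonneg ?_ (Real.log_nonneg ?_)
  · positivity
  · have : (0 : ℝ) ≤ (M d (2 ^ i) : ℝ) := Nat.cast_nonneg _
    linarith

theorem n7a_card (I : ℕ) (x : ℝ) (hx : 0 ≤ x) :
    (((range (I + 1)).filter (fun i : ℕ => (i : ℝ) ≤ x)).card : ℝ) ≤ x + 1 := by
  have h1 : (range (I + 1)).filter (fun i : ℕ => (i : ℝ) ≤ x) ⊆ range (⌊x⌋₊ + 1) := by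
    intro i hi
    rw [mem_filter] at hi
    rw [mem_range]
    exact Nat.lt_succ_of_le (Nat.le_floor hi.2)
  have h2 := card_le_card h1
  rw [card_range] at h2
  have h3 : ((⌊x⌋₊ : ℕ) : ℝ) ≤ x := Nat.floor_le hx
  have h4 : (((range (I + 1)).filter (fun i : ℕ => (i : ℝ) ≤ x)).card : ℝ) ≤
      ((⌊x⌋₊ + 1 : ℕ) : ℝ) := by exact_mod_cast h2
  push_cast at h4
  linarith

theorem a_sum : ∃ C : ℝ, 0 < C ∧ ∀ (ε : ℝ) (d k I : ℕ), 0 < ε → ε ≤ 1 → 2 ^ I ≤ k →
    ∑ i ∈ range (I + 1), a ε d i ≤ C * (ε * Real.log (135 / ε) * (A d k + 1) + 1) := by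
  set r : ℝ := Real.exp (-(Real.log 2 / 8)) with hr
  have hl2 : 0 < Real.log 2 := Real.log_pos (by norm_num)
  have hr0 : 0 < r := Real.exp_pos _
  have hr1 : r < 1 := by
    rw [hr, Real.exp_lt_one_iff]
    linarith
  have h1r : 0 < 1 - r := by linarith
  refine ⟨16 + 270 / (1 - r), by positivity, ?_⟩
  intro ε d k I h0 h1 hI
  set κ : ℝ := ε * Real.log (135 / ε) with hκ
  have hκ0 : 0 ≤ κ := kappa_nonneg h0 h1
  have hA0 : 0 ≤ A d k := A_nonneg d k
  have hM3 : ∀ i : ℕ, (3 : ℝ) ≤ (M d (2 ^ i) : ℝ) + 3 := by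
    intro i
    have : (0 : ℝ) ≤ (M d (2 ^ i) : ℝ) := Nat.cast_nonneg _
    linarith
  have hak : ∀ i : ℕ, a ε d i ≤ κ := fun i => min_log (hM3 i) h0 h1
  set x : ℝ := 2 * (A d k + 5) / Real.log 2 with hx
  have hx0 : 0 ≤ x := by positivity
  have hsplit := Finset.sum_filter_add_sum_filter_not (range (I + 1)) (fun i : ℕ => (i : ℝ) ≤ x)
    (fun i => a ε d i)
  rw [← hsplit]
  have hS1 : ∑ i ∈ (range (I + 1)).filter (fun i : ℕ => (i : ℝ) ≤ x), a ε d i ≤
      (3 * A d k + 16) * κ := by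
    have h2 := Finset.sum_le_card_nsmul ((range (I + 1)).filter (fun i : ℕ => (i : ℝ) ≤ x))
      (fun i => a ε d i) κ (fun i _ => hak i)
    rw [nsmul_eq_mul] at h2
    refine h2.trans (mul_le_mul_of_nonneg_right ((n7a_card I x hx0).trans ?_) hκ0)
    have h3 : x ≤ 3 * (A d k + 5) := by
      rw [hx, div_le_iff₀ hl2]
      have := Real.log_two_gt_d9
      nlinarith
    linarith
  have hterm : ∀ i ∈ (range (I + 1)).filter (fun i : ℕ => ¬ (i : ℝ) ≤ x), a ε d i ≤
      270 * r ^ i := by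
    intro i hi
    rw [mem_filter, mem_range] at hi
    obtain ⟨hiI, hix⟩ := hi
    have hix' : x < i := not_le.1 hix
    set m : ℝ := (M d (2 ^ i) : ℝ) + 3 with hm
    have hm3 : 3 ≤ m := hM3 i
    have hm0 : 0 < m := by linarith
    have h2 : a ε d i ≤ 135 / m * Real.log m :=
      mul_le_mul_of_nonneg_right (min_le_left _ _) (Real.log_nonneg (by linarith))
    have h3 := log_div_le hm0
    have h4 : 135 / m * Real.log m = 135 * (Real.log m / m) := by ring
    have h5 : 2 ^ i ≤ k := (Nat.pow_le_pow_right (by norm_num) (by omega)).trans hI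
    have h6 := m4 d (x := 2 ^ i) (Nat.one_le_two_pow)
    have h7 := A_mono d h5
    have h8 : Real.log ((2 ^ i : ℕ) : ℝ) = i * Real.log 2 := by
      push_cast
      rw [Real.log_pow]
    rw [h8] at h6
    have h9 : 2 * (A d k + 5) < i * Real.log 2 := by
      rwa [hx, div_lt_iff₀ hl2] at hix'
    have h10 : i * Real.log 2 / 4 ≤ Real.log m := by
      rw [hm]
      linarith
    have h11 : Real.exp (i * Real.log 2 / 8) ≤ Real.sqrt m := by
      have : Real.sqrt m = Real.exp (Real.log m / 2) := by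
        rw [← Real.log_sqrt hm0.le, Real.exp_log (Real.sqrt_pos.2 hm0)]
      rw [this]
      apply Real.exp_le_exp.2
      linarith
    have h12 : r ^ i * Real.exp (i * Real.log 2 / 8) = 1 := by
      rw [hr, ← Real.exp_nat_mul, ← Real.exp_add]
      rw [show (i : ℝ) * -(Real.log 2 / 8) + i * Real.log 2 / 8 = 0 by ring, Real.exp_zero]
    have hs : 0 < Real.sqrt m := Real.sqrt_pos.2 hm0
    have h13 : 2 / Real.sqrt m ≤ 2 * r ^ i := by
      rw [div_le_iff₀ hs]
      have h14 : 0 < r ^ i := by positivity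
      have := mul_le_mul_of_nonneg_left h11 h14.le
      rw [h12] at this
      linarith
    linarith
  have hS2 : ∑ i ∈ (range (I + 1)).filter (fun i : ℕ => ¬ (i : ℝ) ≤ x), a ε d i ≤
      270 / (1 - r) := by
    refine (Finset.sum_le_sum hterm).trans ?_
    rw [← Finset.mul_sum]
    have h2 : ∑ i ∈ (range (I + 1)).filter (fun i : ℕ => ¬ (i : ℝ) ≤ x), r ^ i ≤ (1 - r)⁻¹ := by
      rw [← tsum_geometric_of_lt_one hr0.le hr1]
      exact (summable_geometric_of_lt_one hr0.le hr1).sum_le_tsum _ (fun i _ => by positivity)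
    have h3 : 270 / (1 - r) = 270 * (1 - r)⁻¹ := by ring
    rw [h3]
    linarith
  have hq : 0 ≤ 270 / (1 - r) := by positivity
  have h20 : (3 * A d k + 16) * κ + 270 / (1 - r) ≤
      (16 + 270 / (1 - r)) * (κ * (A d k + 1) + 1) := by
    have e1 : 0 ≤ κ * A d k := mul_nonneg hκ0 hA0
    have e2 : 0 ≤ 270 / (1 - r) * (κ * (A d k + 1)) := by positivity
    nlinarith
  linarith

end AP4
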