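import Pool.Agent.AP4.N7a

/-!
[AP4-N7b] one dyadic block.

Let `c` be in the filtered set and `i = j/3`.  `2^j ≤ k/c < 2^(j+1)` (`Nat.log`), so `c * 2^j ≤ k`,
`(k:ℝ)/c < 2^(j+1)`, `c ≤ z := k / 2^j` (nat division) and `z ≥ c ≥ q+1 ≥ 2` (`q ≥ 1` since
`k ≥ 1`).  Moreover `(q+1)^4 > k ≥ 2^j z ≥ 2^j (q+1)`, so `(q+1)^3 > 2^j ≥ 2^(3i)`, `q + 1 > 2^i`, so
`x := 2^(max i 1) ≤ z`.
 * `h1` with `Q = 2^i` (`c Q^3 ≤ c 2^j ≤ k`) and `h2`: `S c ≤ (k/c) w`, `w = min (135/(M d (2^i)+3)) ε`.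
 * `log (k/c) ≤ (j+1) log 2`, `(k/c) ≤ 2^(j+1)`.
 * The set is contained in `cop d z`; `HT`: `(cop d z).card ≤ C z G(z)/log z ≤ C (k/2^j) G(z)/log z`.
So the sum is `≤ 2 C k w (j+1) log 2 * G(z)/log z`; by `m2` (`x ≤ z`)
`G(z)/log z ≤ C' G(x)/log x`, `log x = (max i 1) log 2`, `j + 1 ≤ 3 i + 3 ≤ 6 (max i 1)`; so it is
`≤ 12 C C' k w G(x)`.  If `i ≥ 1`, `G(x) ≤ C'' log (M d (2^i) + 3)` by `m3`; if `i = 0`,
`G(2) ≤ 2 ≤ 2 log (M d 1 + 3)`.
If the set is empty the claim is `0 ≤ C k a` (`a_nonneg`).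
-/

namespace AP4
open Finset

theorem block : ∃ C : ℝ, 0 < C ∧ ∀ (ε : ℝ) (N0 d k : ℕ) (S : ℕ → ℕ), HS ε N0 d k S →
    ∀ j q : ℕ, q ^ 4 ≤ k → k < (q + 1) ^ 4 →
      ∑ c ∈ (cop d k).filter (fun c => q < c ∧ c * N0 ≤ k ∧ Nat.log 2 (k / c) = j),
        (S c : ℝ) * Real.log ((k : ℝ) / c) ≤ C * k * a ε d (j / 3) := by
  obtain ⟨C1, hC1, hHT⟩ := HT
  obtain ⟨C2, hC2, hm2⟩ := m2
  obtain ⟨C3, hC3, hm3⟩ := m3
  refine ⟨12 * C1 * C2 * (C3 + 2), by positivity, ?_⟩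
  intro ε N0 d k S hS j q hq1 hq2
  set F := (cop d k).filter (fun c => q < c ∧ c * N0 ≤ k ∧ Nat.log 2 (k / c) = j) with hF
  have ha0 := a_nonneg hS.ε0 d (j / 3)
  have hk0 : (0 : ℝ) ≤ k := Nat.cast_nonneg _
  rcases F.eq_empty_or_nonempty with hE | ⟨c0, hc0⟩
  · rw [hE, sum_empty]
    positivity
  set i := j / 3 with hi
  have h3i : 3 * i ≤ j := Nat.mul_div_le j 3
  have hj3 : j + 1 ≤ 3 * i + 3 := by omega
  set z := k / 2 ^ j with hz
  set w : ℝ := min (135 / ((M d (2 ^ i) : ℝ) + 3)) ε with hw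
  have hw0 : 0 ≤ w := by
    apply le_min
    · positivity
    · exact hS.ε0.le
  have hpj : (0 : ℕ) < 2 ^ j := by positivity
  have hzk : z * 2 ^ j ≤ k := Nat.div_mul_le_self k (2 ^ j)
  have hq : 1 ≤ q := by
    rcases Nat.eq_zero_or_pos q with h | h
    · rw [h] at hq2
      have := hS.k1
      norm_num at hq2
      omega
    · exact h
  -- facts on the members
  have hmem : ∀ c ∈ F, 1 ≤ c ∧ c * 2 ^ j ≤ k ∧ c ≤ z ∧ k < 2 ^ (j + 1) * c ∧ c ≤ k ∧ q < c ∧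
      c * N0 ≤ k ∧ Nat.Coprime c d := by
    intro c hc
    rw [hF, mem_filter, cop, mem_filter, mem_Icc] at hc
    obtain ⟨⟨⟨h1, h2⟩, h3⟩, h4, h5, h6⟩ := hc
    have h7 : k / c ≠ 0 := (Nat.div_pos h2 h1).ne'
    have h8 := Nat.pow_log_le_self 2 h7
    have h9 := Nat.lt_pow_succ_log_self (b := 2) (by norm_num) (k / c)
    rw [h6] at h8 h9
    have h10 : c * 2 ^ j ≤ k := by
      have := (Nat.le_div_iff_mul_le h1).1 h8
      rwa [mul_comm] at this
    refine ⟨h1, h10, (Nat.le_div_iff_mul_le hpj).2 h10, ?_, h2, h4, h5, h3⟩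
    exact (Nat.div_lt_iff_lt_mul h1).1 h9
  have hzq : q + 1 ≤ z := by
    have := hmem c0 hc0
    omega
  have hz2 : 2 ≤ z := by omega
  have hqi : 2 ^ i < q + 1 := by
    by_contra hcon
    push Not at hcon
    have h1 : (q + 1) ^ 3 ≤ (2 ^ i) ^ 3 := Nat.pow_le_pow_left hcon 3
    have h2 : (2 ^ i) ^ 3 ≤ 2 ^ j := by
      rw [← pow_mul]
      exact Nat.pow_le_pow_right (by norm_num) (by omega)
    have h3 : (q + 1) ^ 4 ≤ k := by
      calc (q + 1) ^ 4 = (q + 1) * (q + 1) ^ 3 := by ring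
        _ ≤ z * 2 ^ j := Nat.mul_le_mul hzq (h1.trans h2)
        _ ≤ k := hzk
    omega
  set e := max i 1 with he
  have hx2 : 2 ≤ 2 ^ e := by
    calc 2 = 2 ^ 1 := by norm_num
      _ ≤ 2 ^ e := Nat.pow_le_pow_right (by norm_num) (le_max_right _ _)
  have hxz : 2 ^ e ≤ z := by
    rw [he]
    rcases le_total i 1 with h | h
    · rw [max_eq_right h]
      simpa using hz2
    · rw [max_eq_left h]
      omega
  have hje : j + 1 ≤ 6 * e := by
    have h1 : i ≤ e := le_max_left _ _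
    have h2 : 1 ≤ e := le_max_right _ _
    omega
  have hlog2 : 0 < Real.log 2 := Real.log_pos (by norm_num)
  have hlogx : Real.log ((2 ^ e : ℕ) : ℝ) = e * Real.log 2 := by
    rw [Nat.cast_pow, Nat.cast_ofNat, Real.log_pow]
  have hlogz : 0 < Real.log (z : ℝ) := by
    apply Real.log_pos
    have : (2 : ℝ) ≤ z := by exact_mod_cast hz2
    linarith
  -- one term
  have hterm : ∀ c ∈ F, (S c : ℝ) * Real.log ((k : ℝ) / c) ≤
      2 ^ (j + 1) * w * (6 * Real.log ((2 ^ e : ℕ) : ℝ)) := by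
    intro c hc
    obtain ⟨h1, h2, _, h4, h5, _, h7, _⟩ := hmem c hc
    have hc0 : (0 : ℝ) < c := by exact_mod_cast h1
    have h8 : c * (2 ^ i) ^ 3 ≤ k := by
      refine le_trans ?_ h2
      apply Nat.mul_le_mul_left
      rw [← pow_mul]
      exact Nat.pow_le_pow_right (by norm_num) (by omega)
    have h9 := hS.h1 c (2 ^ i) h1 Nat.one_le_two_pow h8
    have h10 := hS.h2 c h1 h7
    have hkc1 : (1 : ℝ) ≤ (k : ℝ) / c := by
      rw [le_div_iff₀ hc0, one_mul]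
      exact_mod_cast h5
    have hkc : (k : ℝ) / c ≤ 2 ^ (j + 1) := by
      rw [div_le_iff₀ hc0]
      exact_mod_cast h4.le
    have h11 : (S c : ℝ) ≤ (k : ℝ) / c * w := by
      rw [hw, mul_min_of_nonneg _ _ (by linarith)]
      apply le_min
      · refine h9.trans (le_of_eq ?_)
        ring
      · refine h10.trans (le_of_eq ?_)
        ring
    have h12 : (S c : ℝ) ≤ 2 ^ (j + 1) * w :=
      h11.trans (mul_le_mul_of_nonneg_right hkc hw0)
    have h13 : Real.log ((k : ℝ) / c) ≤ 6 * Real.log ((2 ^ e : ℕ) : ℝ) := by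
      have h14 : Real.log ((k : ℝ) / c) ≤ ((j + 1 : ℕ) : ℝ) * Real.log 2 := by
        rw [← Real.log_pow]
        exact Real.log_le_log (by linarith) hkc
      have h15 : ((j + 1 : ℕ) : ℝ) ≤ 6 * e := by exact_mod_cast hje
      rw [hlogx]
      have h16 := mul_le_mul_of_nonneg_right h15 hlog2.le
      linarith
    exact mul_le_mul h12 h13 (Real.log_nonneg hkc1) (by positivity)
  have hcard : F.card ≤ (cop d z).card := by
    apply card_le_card
    intro c hc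
    obtain ⟨h1, _, h3, _, _, _, _, h8⟩ := hmem c hc
    rw [cop, mem_filter, mem_Icc]
    exact ⟨⟨h1, h3⟩, h8⟩
  have hHTz := hHT d z (by omega)
  have hm2z := hm2 d (2 ^ e) z hx2 hxz
  have hG : G d (2 ^ e) ≤ (C3 + 2) * Real.log ((M d (2 ^ i) : ℝ) + 3) := by
    have hl := one_le_log3 (M d (2 ^ i))
    rcases Nat.lt_or_ge i 1 with h | h
    · have hi0 : i = 0 := by omega
      have he1 : e = 1 := by rw [he, hi0]; rfl
      rw [he1, pow_one]
      have := G_two_le d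
      nlinarith
    · have he1 : e = i := by rw [he]; exact max_eq_left h
      rw [he1]
      have := hm3 d (2 ^ i)
      nlinarith
  have hGz0 : 0 ≤ G d z := le_trans zero_le_one (one_le_G d z)
  have hGx0 : 0 ≤ G d (2 ^ e) := le_trans zero_le_one (one_le_G d _)
  have hlx0 : 0 ≤ Real.log ((2 ^ e : ℕ) : ℝ) := by
    rw [hlogx]; positivity
  -- the sum
  have hsum : ∑ c ∈ F, (S c : ℝ) * Real.log ((k : ℝ) / c) ≤
      (cop d z).card * (2 ^ (j + 1) * w * (6 * Real.log ((2 ^ e : ℕ) : ℝ))) := by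
    refine (sum_le_sum hterm).trans ?_
    rw [sum_const, nsmul_eq_mul]
    apply mul_le_mul_of_nonneg_right _ (by positivity)
    exact_mod_cast hcard
  have hmain : (cop d z).card * (2 ^ (j + 1) * w * (6 * Real.log ((2 ^ e : ℕ) : ℝ))) ≤
      12 * C1 * C2 * k * w * G d (2 ^ e) := by
    apply le_of_mul_le_mul_right _ hlogz
    have hzk' : (z : ℝ) * 2 ^ j ≤ k := by exact_mod_cast hzk
    calc (cop d z).card * (2 ^ (j + 1) * w * (6 * Real.log ((2 ^ e : ℕ) : ℝ))) * Real.log z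
        = ((cop d z).card * Real.log z) * (12 * 2 ^ j * w * Real.log ((2 ^ e : ℕ) : ℝ)) := by
          rw [pow_succ]; ring
      _ ≤ (C1 * (z * G d z)) * (12 * 2 ^ j * w * Real.log ((2 ^ e : ℕ) : ℝ)) :=
          mul_le_mul_of_nonneg_right hHTz (by positivity)
      _ = (z * 2 ^ j) * (12 * C1 * w * (G d z * Real.log ((2 ^ e : ℕ) : ℝ))) := by ring
      _ ≤ k * (12 * C1 * w * (G d z * Real.log ((2 ^ e : ℕ) : ℝ))) :=
          mul_le_mul_of_nonneg_right hzk' (by positivity)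
      _ ≤ k * (12 * C1 * w * (C2 * (G d (2 ^ e) * Real.log z))) := by
          apply mul_le_mul_of_nonneg_left _ hk0
          exact mul_le_mul_of_nonneg_left hm2z (by positivity)
      _ = 12 * C1 * C2 * k * w * G d (2 ^ e) * Real.log z := by ring
  refine hsum.trans (hmain.trans ?_)
  have hfin : 12 * C1 * C2 * k * w * G d (2 ^ e) ≤
      12 * C1 * C2 * k * w * ((C3 + 2) * Real.log ((M d (2 ^ i) : ℝ) + 3)) :=
    mul_le_mul_of_nonneg_left hG (by positivity)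
  refine hfin.trans (le_of_eq ?_)
  rw [a, ← hw]
  ring

end AP4
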