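import Mathlib

/-!
[AP4-N8] Fermat: there are no four squares in arithmetic progression (non constant).

Suppose `x^2 < y^2 < z^2 < w^2` are in arithmetic progression with difference `D > 0`
(naturals), and that `w` is minimal among all such quadruples.

1. `gcd x y = 1`: a prime `p` dividing `x, y` has `p^2 ∣ D`, so `p ∣ z, w` and one can divide by `p`
(contradicts minimality of `w`; `w > 0`).  Then `gcd y z = 1` (`p ∣ y,z ⇒ p^2 ∣ D ⇒ p ∣ x`) and
`gcd z w = 1`.  `x^2 + z^2 = 2 y^2`, `y^2 + w^2 = 2 z^2`: mod 4, `x, z` have the same parity; if both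
even then `4 ∣ 2 y^2`, `y` even, contradiction; so `x, z` odd; similarly `y, w` odd.  All are
positive.
2. `(y-x)/2 * ((y+x)/2) = D/4 = (w-z)/2 * ((w+z)/2)`, with `(y-x)/2, (y+x)/2` coprime (sum `y`,
difference `x`) and `(w-z)/2, (w+z)/2` coprime.  Put `p = (y-x)/2`, `s = (y+x)/2`, `r = (w-z)/2`,
`t = (w+z)/2`, `p s = r t`, and `a = gcd p r`, `b = gcd p t`, `c = gcd s r`, `e = gcd s t`.  Then
`p = a b`, `s = c e`, `r = a c`, `t = b e`, and `a,b,c,e` are pairwise coprime except possibly...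
(indeed: `a ∣ p, c ∣ s`; `a ∣ p, e ∣ s`; `b ∣ p, c ∣ s`; `b ∣ p, e ∣ s`; `a ∣ r, b ∣ t`; `c ∣ r, e ∣ t`:
all six pairs are coprime).  So
`y = a b + c e`, `x = c e - a b`, `w = a c + b e`, `z = b e - a c`.
3. `z^2 - y^2 = D = 4 a b c e` becomes `(b^2 - c^2)(e^2 - a^2) = 8 a b c e`.  All of `a,b,c,e` are
positive (`D > 0`), `b e > a c` (`z > 0`); so both factors are positive (both negative would give
`b e < a c`): `b > c`, `e > a`.
4. `gcd (b c, b^2 - c^2) = 1` and `gcd (a e, e^2 - a^2) = 1`.  So `b c ∣ e^2 - a^2`, `a e ∣ b^2 - c^2`: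
`e^2 - a^2 = m b c`, `b^2 - c^2 = m' a e`, `m m' = 8`.
5. `m ∈ {2, 4}`: `m` and `m'` are both even, so `e ≡ a`, `b ≡ c mod 2` and by coprimality all four are
odd; then `8 ∣ e^2 - a^2 = m b c` with `b c` odd and `8 ∤ m`, contradiction.
6. `m = 1`, `m' = 8`: `e^2 - a^2 = b c`, `b^2 - c^2 = 8 a e`.  `b ≡ c mod 2`, coprime: both odd.  So
`e + a`, `e - a` are odd and coprime, `(e+a)(e-a) = b c`, `gcd b c = 1`: as in 2. there are
`b1, c1, b2, c2` pairwise coprime, odd, with `e + a = b1 c1`, `e - a = b2 c2`, `b = b1 b2`, `c = c1 c2`.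
Then `b^2 - c^2 = 8 a e = 2 ((e+a)^2 - (e-a)^2)`:
`b1^2 b2^2 - c1^2 c2^2 = 2 b1^2 c1^2 - 2 b2^2 c2^2`, i.e. (integers)
`b1^2 (2 c1^2 - b2^2) = c2^2 (2 b2^2 - c1^2)`.
`gcd (b1, c2) = 1`, so `2 b2^2 - c1^2 = b1^2 t`, `2 c1^2 - b2^2 = c2^2 t` with an integer `t`.  Adding:
`b2^2 + c1^2 = t (b1^2 + c2^2)`, so `t > 0`.  `t ∣ 2 (2 b2^2 - c1^2) + (2 c1^2 - b2^2) = 3 b2^2` and
`t ∣ 3 c1^2`, `gcd (b2, c1) = 1`: `t ∣ 3`.  Mod 8: `t ≡ t b1^2 = 2 b2^2 - c1^2 ≡ 1`, so `t = 1`.  So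
`c2^2, c1^2, b2^2, b1^2` is an arithmetic progression (possibly decreasing or constant).  Constant:
then `b1 = b2 = c1 = c2 = 1` (coprime), so `b = c`, contradiction to `b > c`.  Otherwise we have a non
constant progression of four squares, all the roots are `≤ b < w` (`w = a c + b e`): contradiction to
the minimality.
7. `m = 8`, `m' = 1`: the same with `(b, c)` and `(e, a)` exchanged (`w > e`).

(Strong induction on `w`, with the statement for naturals
`x^2 + z^2 = 2 y^2 → y^2 + w^2 = 2 z^2 → x < y → False`, or any variant you like.)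
-/

namespace AP4

/-- the four number lemma -/
theorem n8_four {p s r t : ℕ} (hp : 0 < p) (hr : 0 < r) (hps : Nat.Coprime p s)
    (hrt : Nat.Coprime r t) (h : p * s = r * t) :
    ∃ a b c e : ℕ, p = a * b ∧ s = c * e ∧ r = a * c ∧ t = b * e ∧ Nat.Coprime a b ∧
      Nat.Coprime a c ∧ Nat.Coprime a e ∧ Nat.Coprime b c ∧ Nat.Coprime b e ∧ Nat.Coprime c e := by
  have ha0 : 0 < Nat.gcd p r := Nat.gcd_pos_of_pos_left _ hp
  obtain ⟨b, hb⟩ := Nat.gcd_dvd_left p r
  obtain ⟨c, hc⟩ := Nat.gcd_dvd_right p r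
  set a := Nat.gcd p r with ha
  have hbc : Nat.Coprime b c := by
    have h1 : Nat.gcd (a * b) (a * c) = a := by rw [← hb, ← hc]
    rw [Nat.gcd_mul_left] at h1
    have h2 : a * Nat.gcd b c = a * 1 := by rw [h1, mul_one]
    exact Nat.eq_of_mul_eq_mul_left ha0 h2
  have h2 : b * s = c * t := by
    apply Nat.eq_of_mul_eq_mul_left ha0
    rw [← mul_assoc, ← mul_assoc, ← hb, ← hc, h]
  have hcs : c ∣ s := hbc.symm.dvd_of_dvd_mul_left (Dvd.intro _ h2.symm)
  obtain ⟨e, he⟩ := hcs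
  have hc0 : 0 < c := by
    rcases Nat.eq_zero_or_pos c with h3 | h3
    · rw [h3, mul_zero] at hc; omega
    · exact h3
  have ht : t = b * e := by
    apply Nat.eq_of_mul_eq_mul_left hc0
    rw [← h2, he]; ring
  refine ⟨a, b, c, e, hb, he, hc, ht, ?_, ?_, ?_, hbc, ?_, ?_⟩
  · -- a ∣ r, b ∣ t
    exact Nat.Coprime.coprime_dvd_left ⟨c, hc⟩ (Nat.Coprime.coprime_dvd_right ⟨e, ht⟩ hrt)
  · exact Nat.Coprime.coprime_dvd_left ⟨b, hb⟩ (Nat.Coprime.coprime_dvd_right ⟨e, he⟩ hps)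
  · exact Nat.Coprime.coprime_dvd_left ⟨b, hb⟩
      (Nat.Coprime.coprime_dvd_right ⟨c, by rw [he, mul_comm]⟩ hps)
  · exact Nat.Coprime.coprime_dvd_left ⟨a, by rw [hb, mul_comm]⟩
      (Nat.Coprime.coprime_dvd_right ⟨c, by rw [he, mul_comm]⟩ hps)
  · exact Nat.Coprime.coprime_dvd_left ⟨a, by rw [hc, mul_comm]⟩
      (Nat.Coprime.coprime_dvd_right ⟨b, by rw [ht, mul_comm]⟩ hrt)

/-- no progression with last term `w ^ 2` -/
def n8_F (w : ℕ) : Prop := ∀ x y z : ℕ, x ^ 2 + z ^ 2 = 2 * y ^ 2 → y ^ 2 + w ^ 2 = 2 * z ^ 2 →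
  x < y → False

theorem n8_odd_sq {a : ℤ} (h : Odd a) : a ^ 2 % 8 = 1 := by
  have h1 : a % 2 = 1 := Int.odd_iff.1 h
  have h2 : a % 8 = 1 ∨ a % 8 = 3 ∨ a % 8 = 5 ∨ a % 8 = 7 := by omega
  rw [pow_two, Int.mul_emod]
  rcases h2 with h2 | h2 | h2 | h2 <;> rw [h2] <;> norm_num

theorem n8_L {a b c e : ℕ} (ha : 0 < a) (hb : 0 < b) (hc : 0 < c) (he : 0 < e)
    (hbc : Nat.Coprime b c) (hae : Nat.Coprime a e) (h1 : e ^ 2 = a ^ 2 + b * c)
    (h2 : b ^ 2 = c ^ 2 + 8 * (a * e)) (IH : ∀ w ≤ b, n8_F w) : False := by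
  -- parities
  have hbodd : Odd b := by
    by_contra hne
    rw [Nat.not_odd_iff_even] at hne
    have hce : Even c := by
      by_contra hco
      rw [Nat.not_even_iff_odd] at hco
      have h3 : Odd (c ^ 2 + 8 * (a * e)) := by
        rw [Nat.odd_add]
        exact iff_of_true hco.pow ⟨4 * (a * e), by ring⟩
      rw [← h2] at h3
      exact (Nat.not_even_iff_odd.2 h3) (hne.pow_of_ne_zero (by norm_num))
    have h3 := Nat.dvd_gcd hne.two_dvd hce.two_dvd
    rw [hbc] at h3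
    norm_num at h3
  have hcodd : Odd c := by
    by_contra hne
    rw [Nat.not_odd_iff_even] at hne
    have h3 : Even (c ^ 2 + 8 * (a * e)) := (hne.pow_of_ne_zero (by norm_num)).add ⟨4 * (a * e), by ring⟩
    rw [← h2] at h3
    exact (Nat.not_even_iff_odd.2 (hbodd.pow)) h3
  have hea : a < e := by
    by_contra hle
    push Not at hle
    have : e ^ 2 ≤ a ^ 2 := Nat.pow_le_pow_left hle 2
    have : 0 < b * c := Nat.mul_pos hb hc
    omega
  obtain ⟨s, hs⟩ : ∃ s, e = a + s := ⟨e - a, by omega⟩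
  have hs0 : 0 < s := by omega
  have hps : (e + a) * s = b * c := by
    have h3 : e ^ 2 = a ^ 2 + (e + a) * s := by rw [hs]; ring
    omega
  have hpsodd : Odd ((e + a) * s) := by rw [hps]; exact hbodd.mul hcodd
  have hpodd : Odd (e + a) := Nat.Odd.of_mul_left hpsodd
  have hsodd : Odd s := Nat.Odd.of_mul_right hpsodd
  have hcop : Nat.Coprime (e + a) s := by
    apply Nat.Coprime.symm
    -- gcd s (e + a) = gcd s (2 a)
    have h3 : e + a = 2 * a + s := by omega
    rw [h3, Nat.coprime_add_self_right]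
    apply Nat.Coprime.mul_right
    · exact (Nat.coprime_two_left.2 hsodd).symm
    · have h4 : Nat.Coprime a (a + s) := by rw [← hs]; exact hae
      rw [Nat.coprime_self_add_right] at h4
      exact h4.symm
  obtain ⟨al, be, ga, ep, e1, e2, e3, e4, c1, c2, c3, c4, c5, c6⟩ :=
    n8_four (by omega) hb hcop hbc hps
  have hal : 0 < al := by
    rcases Nat.eq_zero_or_pos al with h | h
    · rw [h, zero_mul] at e3; omega
    · exact h
  have hga : 0 < ga := by
    rcases Nat.eq_zero_or_pos ga with h | h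
    · rw [h, mul_zero] at e3; omega
    · exact h
  have hbe : 0 < be := by
    rcases Nat.eq_zero_or_pos be with h | h
    · rw [h, zero_mul] at e4; omega
    · exact h
  have hep : 0 < ep := by
    rcases Nat.eq_zero_or_pos ep with h | h
    · rw [h, mul_zero] at e4; omega
    · exact h
  have oal : Odd (al : ℤ) := by
    rw [e3] at hbodd; exact_mod_cast Nat.Odd.of_mul_left hbodd
  have oga : Odd (ga : ℤ) := by
    rw [e3] at hbodd; exact_mod_cast Nat.Odd.of_mul_right hbodd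
  have obe : Odd (be : ℤ) := by
    rw [e4] at hcodd; exact_mod_cast Nat.Odd.of_mul_left hcodd
  have oep : Odd (ep : ℤ) := by
    rw [e4] at hcodd; exact_mod_cast Nat.Odd.of_mul_right hcodd
  -- the equation in the integers
  have key : (al : ℤ) ^ 2 * (2 * (be : ℤ) ^ 2 - (ga : ℤ) ^ 2) =
      (ep : ℤ) ^ 2 * (2 * (ga : ℤ) ^ 2 - (be : ℤ) ^ 2) := by
    have k1 : (b : ℤ) = al * ga := by exact_mod_cast e3
    have k2 : (c : ℤ) = be * ep := by exact_mod_cast e4
    have k3 : (e : ℤ) + a = al * be := by exact_mod_cast e1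
    have k4 : (s : ℤ) = ga * ep := by exact_mod_cast e2
    have k5 : (e : ℤ) = a + s := by exact_mod_cast hs
    have k6 : (b : ℤ) ^ 2 = (c : ℤ) ^ 2 + 8 * (a * e) := by exact_mod_cast h2
    have k7 : 8 * ((a : ℤ) * e) = 2 * (al * be) ^ 2 - 2 * (ga * ep) ^ 2 := by
      rw [← k3, ← k4]
      have k8 : (s : ℤ) = e - a := by linarith
      rw [k8]; ring
    rw [k7, k1, k2] at k6
    linear_combination -k6
  have hcop2 : IsCoprime ((al : ℤ) ^ 2) ((ep : ℤ) ^ 2) :=
    (Nat.isCoprime_iff_coprime.2 c3).pow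
  have hdvd : (al : ℤ) ^ 2 ∣ 2 * (ga : ℤ) ^ 2 - (be : ℤ) ^ 2 :=
    hcop2.dvd_of_dvd_mul_left (Dvd.intro _ key)
  obtain ⟨t, ht⟩ := hdvd
  have ht2 : 2 * (be : ℤ) ^ 2 - (ga : ℤ) ^ 2 = (ep : ℤ) ^ 2 * t := by
    have h3 : (al : ℤ) ^ 2 ≠ 0 := by positivity
    apply mul_left_cancel₀ h3
    rw [key, ht]; ring
  have hsum : (ga : ℤ) ^ 2 + (be : ℤ) ^ 2 = t * ((al : ℤ) ^ 2 + (ep : ℤ) ^ 2) := by
    linear_combination ht + ht2
  have htpos : 0 < t := by
    have h3 : 0 < (ga : ℤ) ^ 2 + (be : ℤ) ^ 2 := by positivity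
    have h4 : 0 < (al : ℤ) ^ 2 + (ep : ℤ) ^ 2 := by positivity
    rw [hsum] at h3
    exact pos_of_mul_pos_left h3 h4.le
  have ht3 : t ∣ 3 := by
    have h3 : t ∣ 3 * (ga : ℤ) ^ 2 := ⟨2 * (al : ℤ) ^ 2 + (ep : ℤ) ^ 2, by linear_combination 2 * ht + ht2⟩
    have h4 : t ∣ 3 * (be : ℤ) ^ 2 := ⟨(al : ℤ) ^ 2 + 2 * (ep : ℤ) ^ 2, by linear_combination ht + 2 * ht2⟩
    have h5 : IsCoprime ((ga : ℤ) ^ 2) ((be : ℤ) ^ 2) := (Nat.isCoprime_iff_coprime.2 c4.symm).pow
    obtain ⟨u, v, huv⟩ := h5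
    have h6 : (3 : ℤ) = u * (3 * (ga : ℤ) ^ 2) + v * (3 * (be : ℤ) ^ 2) := by linear_combination (-3) * huv
    rw [h6]
    exact dvd_add (Dvd.dvd.mul_left h3 _) (Dvd.dvd.mul_left h4 _)
  have ht1 : t = 1 := by
    have h3 := n8_odd_sq oal
    have h4 := n8_odd_sq oga
    have h5 := n8_odd_sq obe
    have h6 : t ≤ 3 := Int.le_of_dvd (by norm_num) ht3
    have h7 : (2 * (ga : ℤ) ^ 2 - (be : ℤ) ^ 2) % 8 = 1 := by omega
    rw [ht, Int.mul_emod, h3, one_mul, Int.emod_emod] at h7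
    omega
  rw [ht1, mul_one] at ht ht2
  have f1 : ep ^ 2 + ga ^ 2 = 2 * be ^ 2 := by zify; linarith
  have f2 : be ^ 2 + al ^ 2 = 2 * ga ^ 2 := by zify; linarith
  have hle1 : al ≤ b := by rw [e3]; exact Nat.le_mul_of_pos_right _ hga
  have hle2 : ep ≤ b := by
    have h3 : ep ≤ c := by rw [e4]; exact Nat.le_mul_of_pos_left _ hbe
    have h4 : c ≤ b := by
      by_contra hlt
      push Not at hlt
      have : b ^ 2 < c ^ 2 := Nat.pow_lt_pow_left hlt (by norm_num)
      omega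
    omega
  rcases lt_trichotomy ep be with h3 | h3 | h3
  · exact IH al hle1 ep be ga f1 f2 h3
  · have h4 : be = 1 := by
      have := c5
      rw [h3] at this
      simpa using this
    rw [h3, h4] at f1
    rw [h4] at f2
    have h5 : ga = 1 := by
      have h7 : ga ^ 2 = 1 := by omega
      exact (Nat.pow_eq_one.1 h7).resolve_right (by norm_num)
    have h6 : al = 1 := by
      rw [h5] at f2
      have h7 : al ^ 2 = 1 := by omega
      exact (Nat.pow_eq_one.1 h7).resolve_right (by norm_num)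
    rw [h5, h6] at e3
    rw [h3, h4] at e4
    rw [e3, e4] at h2
    have : 0 < a * e := Nat.mul_pos ha he
    omega
  · -- decreasing
    refine IH ep hle2 al ga be (by linarith) (by linarith) ?_
    have h4 : be ^ 2 < ep ^ 2 := Nat.pow_lt_pow_left h3 (by norm_num)
    have h5 : al ^ 2 < ga ^ 2 := by omega
    exact lt_of_pow_lt_pow_left₀ 2 (Nat.zero_le _) h5

theorem n8_parity {x y z : ℕ} (h : x ^ 2 + z ^ 2 = 2 * y ^ 2) (hxy : Nat.Coprime x y) : Odd x := by
  by_contra hne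
  rw [Nat.not_odd_iff_even] at hne
  have hz : Even z := by
    by_contra hz
    rw [Nat.not_even_iff_odd] at hz
    have h1 : Odd (x ^ 2 + z ^ 2) := by
      rw [Nat.odd_add']
      exact iff_of_true hz.pow (hne.pow_of_ne_zero (by norm_num))
    rw [h] at h1
    exact (Nat.not_even_iff_odd.2 h1) ⟨y ^ 2, by ring⟩
  obtain ⟨k, hk⟩ := hne
  obtain ⟨l, hl⟩ := hz
  have h1 : y ^ 2 = 2 * (k ^ 2 + l ^ 2) := by
    have : x ^ 2 + z ^ 2 = 4 * (k ^ 2 + l ^ 2) := by rw [hk, hl]; ring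
    omega
  have h2 : 2 ∣ y := Nat.prime_two.dvd_of_dvd_pow (Dvd.intro _ h1.symm)
  have h3 := Nat.dvd_gcd (show 2 ∣ x from ⟨k, by omega⟩) h2
  rw [hxy] at h3
  norm_num at h3

theorem n8_main (w : ℕ) : n8_F w := by
  induction w using Nat.strong_induction_on with
  | _ w IH =>
  intro x y z h1 h2 hxy
  have hyz : y < z := by
    have : x ^ 2 < y ^ 2 := Nat.pow_lt_pow_left hxy (by norm_num)
    exact lt_of_pow_lt_pow_left₀ 2 (Nat.zero_le _) (by omega)
  have hzw : z < w := by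
    have : y ^ 2 < z ^ 2 := Nat.pow_lt_pow_left hyz (by norm_num)
    exact lt_of_pow_lt_pow_left₀ 2 (Nat.zero_le _) (by omega)
  -- coprimality
  have hcop : Nat.Coprime x y := by
    by_contra hne
    obtain ⟨p, hp, hpx, hpy⟩ := Nat.Prime.not_coprime_iff_dvd.1 hne
    have hpz : p ∣ z := by
      apply hp.dvd_of_dvd_pow (n := 2)
      have h3 : p ∣ x ^ 2 + z ^ 2 := by
        rw [h1]; exact Dvd.dvd.mul_left (dvd_pow hpy (by norm_num)) _
      exact (Nat.dvd_add_right (dvd_pow hpx (by norm_num))).1 h3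
    have hpw : p ∣ w := by
      apply hp.dvd_of_dvd_pow (n := 2)
      have h3 : p ∣ y ^ 2 + w ^ 2 := by
        rw [h2]; exact Dvd.dvd.mul_left (dvd_pow hpz (by norm_num)) _
      exact (Nat.dvd_add_right (dvd_pow hpy (by norm_num))).1 h3
    obtain ⟨x', rfl⟩ := hpx
    obtain ⟨y', rfl⟩ := hpy
    obtain ⟨z', rfl⟩ := hpz
    obtain ⟨w', rfl⟩ := hpw
    have hp2 : 0 < p ^ 2 := by have := hp.pos; positivity
    refine IH w' ?_ x' y' z' ?_ ?_ ?_
    · have : 0 < w' := by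
        rcases Nat.eq_zero_or_pos w' with h | h
        · rw [h, mul_zero] at hzw; omega
        · exact h
      have h3 := hp.two_le
      nlinarith
    · apply Nat.eq_of_mul_eq_mul_left hp2
      calc p ^ 2 * (x' ^ 2 + z' ^ 2) = (p * x') ^ 2 + (p * z') ^ 2 := by ring
        _ = 2 * (p * y') ^ 2 := h1
        _ = p ^ 2 * (2 * y' ^ 2) := by ring
    · apply Nat.eq_of_mul_eq_mul_left hp2
      calc p ^ 2 * (y' ^ 2 + w' ^ 2) = (p * y') ^ 2 + (p * w') ^ 2 := by ring
        _ = 2 * (p * z') ^ 2 := h2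
        _ = p ^ 2 * (2 * z' ^ 2) := by ring
    · exact lt_of_mul_lt_mul_left hxy (Nat.zero_le _)
  have hcop2 : Nat.Coprime y z := by
    by_contra hne
    obtain ⟨p, hp, hpy, hpz⟩ := Nat.Prime.not_coprime_iff_dvd.1 hne
    have hpx : p ∣ x := by
      apply hp.dvd_of_dvd_pow (n := 2)
      have h3 : p ∣ x ^ 2 + z ^ 2 := by
        rw [h1]; exact Dvd.dvd.mul_left (dvd_pow hpy (by norm_num)) _
      exact (Nat.dvd_add_left (dvd_pow hpz (by norm_num))).1 h3
    have h3 := Nat.dvd_gcd hpx hpy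
    rw [hcop] at h3
    exact hp.one_lt.ne' (Nat.dvd_one.1 h3)
  have hcop3 : Nat.Coprime z w := by
    by_contra hne
    obtain ⟨p, hp, hpz, hpw⟩ := Nat.Prime.not_coprime_iff_dvd.1 hne
    have hpy : p ∣ y := by
      apply hp.dvd_of_dvd_pow (n := 2)
      have h3 : p ∣ y ^ 2 + w ^ 2 := by
        rw [h2]; exact Dvd.dvd.mul_left (dvd_pow hpz (by norm_num)) _
      exact (Nat.dvd_add_left (dvd_pow hpw (by norm_num))).1 h3
    have h3 := Nat.dvd_gcd hpy hpz
    rw [hcop2] at h3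
    exact hp.one_lt.ne' (Nat.dvd_one.1 h3)
  have ox : Odd x := n8_parity h1 hcop
  have oy : Odd y := n8_parity h2 hcop2
  have oz : Odd z := by
    have h3 : z ^ 2 + x ^ 2 = 2 * y ^ 2 := by rw [← h1]; ring
    exact n8_parity h3 hcop2.symm
  have ow : Odd w := by
    have h3 : w ^ 2 + y ^ 2 = 2 * z ^ 2 := by rw [← h2]; ring
    exact n8_parity h3 hcop3.symm
  -- halves
  obtain ⟨p, hp⟩ : ∃ p, y = x + 2 * p := by
    obtain ⟨i, hi⟩ := ox
    obtain ⟨j, hj⟩ := oy
    exact ⟨j - i, by omega⟩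
  obtain ⟨r, hr⟩ : ∃ r, w = z + 2 * r := by
    obtain ⟨i, hi⟩ := oz
    obtain ⟨j, hj⟩ := ow
    exact ⟨j - i, by omega⟩
  have hp0 : 0 < p := by omega
  have hr0 : 0 < r := by omega
  have hprod : p * (x + p) = r * (z + r) := by
    have h3 : y ^ 2 = x ^ 2 + 4 * (p * (x + p)) := by rw [hp]; ring
    have h4 : w ^ 2 = z ^ 2 + 4 * (r * (z + r)) := by rw [hr]; ring
    omega
  have hc1 : Nat.Coprime p (x + p) := by
    rw [Nat.coprime_add_self_right]
    by_contra hne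
    obtain ⟨q, hq, hqp, hqx⟩ := Nat.Prime.not_coprime_iff_dvd.1 hne
    have hqy : q ∣ y := by rw [hp]; exact dvd_add hqx (Dvd.dvd.mul_left hqp _)
    have h3 := Nat.dvd_gcd hqx hqy
    rw [hcop] at h3
    exact hq.one_lt.ne' (Nat.dvd_one.1 h3)
  have hc2 : Nat.Coprime r (z + r) := by
    rw [Nat.coprime_add_self_right]
    by_contra hne
    obtain ⟨q, hq, hqp, hqx⟩ := Nat.Prime.not_coprime_iff_dvd.1 hne
    have hqy : q ∣ w := by rw [hr]; exact dvd_add hqx (Dvd.dvd.mul_left hqp _)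
    have h3 := Nat.dvd_gcd hqx hqy
    rw [hcop3] at h3
    exact hq.one_lt.ne' (Nat.dvd_one.1 h3)
  obtain ⟨a, b, c, e, e1, e2, e3, e4, c1, c2, c3, c4, c5, c6⟩ := n8_four hp0 hr0 hc1 hc2 hprod
  have ha : 0 < a := by
    rcases Nat.eq_zero_or_pos a with h | h
    · rw [h, zero_mul] at e1; omega
    · exact h
  have hb : 0 < b := by
    rcases Nat.eq_zero_or_pos b with h | h
    · rw [h, mul_zero] at e1; omega
    · exact h
  have hc : 0 < c := by
    rcases Nat.eq_zero_or_pos c with h | h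
    · rw [h, mul_zero] at e3; omega
    · exact h
  have he : 0 < e := by
    rcases Nat.eq_zero_or_pos e with h | h
    · rw [h, mul_zero] at e2; omega
    · exact h
  -- the equation
  have kx : (x : ℤ) = c * e - a * b := by
    have : x + p = c * e := e2
    zify at this e1
    linarith
  have ky : (y : ℤ) = c * e + a * b := by
    zify at hp e1
    rw [hp, kx, e1]; ring
  have kz : (z : ℤ) = b * e - a * c := by
    have : z + r = b * e := e4
    zify at this e3
    linarith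
  have kw : (w : ℤ) = b * e + a * c := by
    zify at hr e3
    rw [hr, kz, e3]; ring
  have key : ((b : ℤ) ^ 2 - c ^ 2) * ((e : ℤ) ^ 2 - a ^ 2) = 8 * (a * b * c * e) := by
    have h3 : (x : ℤ) ^ 2 + z ^ 2 = 2 * y ^ 2 := by exact_mod_cast h1
    rw [kx, ky, kz] at h3
    linear_combination h3
  have hwb : b < w := by
    zify
    rw [kw]
    have : (b : ℤ) ≤ b * e := le_mul_of_one_le_right (by positivity) (by exact_mod_cast he)
    have : 0 < (a : ℤ) * c := by positivity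
    linarith
  have hwe : e < w := by
    zify
    rw [kw]
    have : (e : ℤ) ≤ b * e := le_mul_of_one_le_left (by positivity) (by exact_mod_cast hb)
    have : 0 < (a : ℤ) * c := by positivity
    linarith
  -- signs
  have hz0 : (0 : ℤ) < b * e - a * c := by
    rw [← kz]; exact_mod_cast (by omega : 0 < z)
  have hpos8 : (0 : ℤ) < 8 * (a * b * c * e) := by positivity
  have hcb : c < b := by
    by_contra hle
    push Not at hle
    have h3 : (b : ℤ) ^ 2 - c ^ 2 ≤ 0 := by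
      have : (b : ℤ) ^ 2 ≤ (c : ℤ) ^ 2 := by exact_mod_cast Nat.pow_le_pow_left hle 2
      linarith
    have h4 : (e : ℤ) ^ 2 - a ^ 2 < 0 := by
      by_contra h5
      push Not at h5
      have := mul_nonpos_of_nonpos_of_nonneg h3 h5
      rw [key] at this
      linarith
    have h5 : e < a := by
      have : (e : ℤ) ^ 2 < (a : ℤ) ^ 2 := by linarith
      have h6 : e ^ 2 < a ^ 2 := by exact_mod_cast this
      exact lt_of_pow_lt_pow_left₀ 2 (Nat.zero_le _) h6
    have h6 : b * e ≤ c * a := Nat.mul_le_mul hle h5.le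
    have h7 : (b : ℤ) * e ≤ c * a := by exact_mod_cast h6
    linarith
  have hae : a < e := by
    by_contra hle
    push Not at hle
    have h3 : (0 : ℤ) ≤ (b : ℤ) ^ 2 - c ^ 2 := by
      have : (c : ℤ) ^ 2 ≤ (b : ℤ) ^ 2 := by exact_mod_cast Nat.pow_le_pow_left hcb.le 2
      linarith
    have h4 : (e : ℤ) ^ 2 - a ^ 2 ≤ 0 := by
      have : (e : ℤ) ^ 2 ≤ (a : ℤ) ^ 2 := by exact_mod_cast Nat.pow_le_pow_left hle 2
      linarith
    have := mul_nonpos_of_nonneg_of_nonpos h3 h4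
    rw [key] at this
    linarith
  -- divisibilities
  have ib : IsCoprime (b : ℤ) (c : ℤ) := Nat.isCoprime_iff_coprime.2 c4
  have ia : IsCoprime (a : ℤ) (e : ℤ) := Nat.isCoprime_iff_coprime.2 c3
  have d1 : IsCoprime ((b : ℤ) * c) ((b : ℤ) ^ 2 - c ^ 2) := by
    apply IsCoprime.mul_left
    · have h3 : IsCoprime (b : ℤ) (-(c : ℤ) ^ 2) := ib.pow_right.neg_right
      have h4 := h3.add_mul_left_right (b : ℤ)
      have h5 : (b : ℤ) ^ 2 - c ^ 2 = -(c : ℤ) ^ 2 + b * b := by ring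
      rw [h5]
      exact h4
    · have h3 : IsCoprime (c : ℤ) ((b : ℤ) ^ 2) := ib.symm.pow_right
      have h4 := h3.add_mul_left_right (-(c : ℤ))
      have h5 : (b : ℤ) ^ 2 - c ^ 2 = (b : ℤ) ^ 2 + c * -c := by ring
      rw [h5]
      exact h4
  have d2 : IsCoprime ((a : ℤ) * e) ((e : ℤ) ^ 2 - a ^ 2) := by
    apply IsCoprime.mul_left
    · have h3 : IsCoprime (a : ℤ) ((e : ℤ) ^ 2) := ia.pow_right
      have h4 := h3.add_mul_left_right (-(a : ℤ))
      have h5 : (e : ℤ) ^ 2 - a ^ 2 = (e : ℤ) ^ 2 + a * -a := by ring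
      rw [h5]
      exact h4
    · have h3 : IsCoprime (e : ℤ) (-(a : ℤ) ^ 2) := ia.symm.pow_right.neg_right
      have h4 := h3.add_mul_left_right (e : ℤ)
      have h5 : (e : ℤ) ^ 2 - a ^ 2 = -(a : ℤ) ^ 2 + e * e := by ring
      rw [h5]
      exact h4
  obtain ⟨m, hm⟩ : ((b : ℤ) * c) ∣ (e : ℤ) ^ 2 - a ^ 2 :=
    d1.dvd_of_dvd_mul_left ⟨8 * (a * e), by rw [key]; ring⟩
  obtain ⟨m', hm'⟩ : ((a : ℤ) * e) ∣ (b : ℤ) ^ 2 - c ^ 2 :=
    d2.dvd_of_dvd_mul_right ⟨8 * (b * c), by rw [key]; ring⟩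
  have hmm : m * m' = 8 := by
    have h3 : ((a : ℤ) * b * c * e) ≠ 0 := by positivity
    apply mul_left_cancel₀ h3
    rw [hm, hm'] at key
    linear_combination key
  have hm0 : 0 < m := by
    have h3 : (0 : ℤ) < (e : ℤ) ^ 2 - a ^ 2 := by
      have : a ^ 2 < e ^ 2 := Nat.pow_lt_pow_left hae (by norm_num)
      have : (a : ℤ) ^ 2 < (e : ℤ) ^ 2 := by exact_mod_cast this
      linarith
    rw [hm] at h3
    exact pos_of_mul_pos_right h3 (by positivity)
  have hm8 : m ∣ 8 := ⟨m', hmm.symm⟩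
  have hmle : m ≤ 8 := Int.le_of_dvd (by norm_num) hm8
  have hcase : (m = 1 ∧ m' = 8) ∨ (m = 2 ∧ m' = 4) ∨ (m = 4 ∧ m' = 2) ∨ (m = 8 ∧ m' = 1) := by
    interval_cases m <;> omega
  have hmid : ¬ (Even m ∧ Even m') ∨ (8 : ℤ) ∣ m := by
    by_contra hcon
    push Not at hcon
    obtain ⟨⟨he1, he2⟩, hn8⟩ := hcon
    have p1 : Even ((e : ℤ) ^ 2 - a ^ 2) := by rw [hm]; exact he1.mul_left _
    have p2 : Even ((b : ℤ) ^ 2 - c ^ 2) := by rw [hm']; exact he2.mul_left _
    have oe : Odd (e : ℤ) := by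
      by_contra hne
      rw [Int.not_odd_iff_even] at hne
      have h3 : Even ((a : ℤ) ^ 2) := by
        have := (hne.pow_of_ne_zero (two_ne_zero)).sub p1
        simpa using this
      have h4 : Even (a : ℤ) := (Int.even_pow.1 h3).1
      have h5 : Even e := by exact_mod_cast hne
      have h6 : Even a := by exact_mod_cast h4
      have h7 := Nat.dvd_gcd h6.two_dvd h5.two_dvd
      rw [c3] at h7
      norm_num at h7
    have oa : Odd (a : ℤ) := by
      by_contra hne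
      rw [Int.not_odd_iff_even] at hne
      have h3 : Even ((e : ℤ) ^ 2) := by
        have := p1.add (hne.pow_of_ne_zero (two_ne_zero))
        simpa using this
      exact (Int.not_even_iff_odd.2 oe) (Int.even_pow.1 h3).1
    have ob : Odd (b : ℤ) := by
      by_contra hne
      rw [Int.not_odd_iff_even] at hne
      have h3 : Even ((c : ℤ) ^ 2) := by
        have := (hne.pow_of_ne_zero (two_ne_zero)).sub p2
        simpa using this
      have h4 : Even (c : ℤ) := (Int.even_pow.1 h3).1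
      have h5 : Even b := by exact_mod_cast hne
      have h6 : Even c := by exact_mod_cast h4
      have h7 := Nat.dvd_gcd h5.two_dvd h6.two_dvd
      rw [c4] at h7
      norm_num at h7
    have oc : Odd (c : ℤ) := by
      by_contra hne
      rw [Int.not_odd_iff_even] at hne
      have h3 : Even ((b : ℤ) ^ 2) := by
        have := p2.add (hne.pow_of_ne_zero (two_ne_zero))
        simpa using this
      exact (Int.not_even_iff_odd.2 ob) (Int.even_pow.1 h3).1
    have h3 := n8_odd_sq oe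
    have h4 := n8_odd_sq oa
    have h5 : (8 : ℤ) ∣ (b * c) * m := by
      rw [← hm]
      omega
    have h6 : IsCoprime (8 : ℤ) (b * c) := by
      have h7 : Odd ((b : ℤ) * c) := ob.mul oc
      have h8 : IsCoprime (2 : ℤ) ((b : ℤ) * c) := by
        obtain ⟨k, hk⟩ := h7
        exact ⟨-k, 1, by rw [hk]; ring⟩
      have h9 : (8 : ℤ) = 2 ^ 3 := by norm_num
      rw [h9]
      exact h8.pow_left
    exact hn8 (h6.dvd_of_dvd_mul_left h5)
  rcases hcase with ⟨r1, r2⟩ | ⟨r1, r2⟩ | ⟨r1, r2⟩ | ⟨r1, r2⟩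
  · rw [r1, mul_one] at hm
    rw [r2] at hm'
    refine n8_L ha hb hc he c4 c3 ?_ ?_ (fun w' hw' => IH w' (by omega))
    · zify; linarith
    · zify; linarith
  · rw [r1, r2] at hmid
    rcases hmid with h | h
    · exact h ⟨⟨1, by norm_num⟩, ⟨2, by norm_num⟩⟩
    · norm_num at h
  · rw [r1, r2] at hmid
    rcases hmid with h | h
    · exact h ⟨⟨2, by norm_num⟩, ⟨1, by norm_num⟩⟩
    · norm_num at h
  · rw [r1] at hm
    rw [r2, mul_one] at hm'
    refine n8_L (a := c) (b := e) (c := a) (e := b) hc he ha hb c3.symm c4.symm ?_ ?_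
      (fun w' hw' => IH w' (by omega))
    · zify; linarith
    · zify; linarith

theorem fermat4 (a D : ℕ) (hD : 0 < D) (h0 : IsSquare a) (h1 : IsSquare (a + D))
    (h2 : IsSquare (a + 2 * D)) (h3 : IsSquare (a + 3 * D)) : False := by
  obtain ⟨x, hx⟩ := h0
  obtain ⟨y, hy⟩ := h1
  obtain ⟨z, hz⟩ := h2
  obtain ⟨w, hw⟩ := h3
  refine n8_main w x y z ?_ ?_ ?_
  · rw [pow_two, pow_two, pow_two, ← hx, ← hy, ← hz]; ring
  · rw [pow_two, pow_two, pow_two, ← hw, ← hy, ← hz]; ring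
  · by_contra hle
    push Not at hle
    have := Nat.mul_le_mul hle hle
    omega

end AP4
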